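import Mathlib

/-!
# Project FMD (MP_b583a4_nt), module SeqZero: zeros of binomial series on a lattice of integers (Mathlib only)

`a t = ∑ j ≤ t, (t.choose j) * c j` with `‖c j‖ ≤ C * p^(-2 j)`. If `a (m * s) = 0` for all `s`, then `a = 0` on `ℕ`.

PLAN. `‖(p : E)‖ = (p : ℝ)⁻¹` (`norm_algebraMap'`, `padicNormE.norm_p`), `‖(k : E)‖ ≤ 1` for naturals, and `‖(j ! : E)‖ ≥ (p : ℝ)⁻¹ ^ j` (the valuation of `j !` is less than `j`: `Nat.Prime.sub_one_mul_multiplicity_factorial`, `sub_one_mul_padicValNat_factorial`, or by induction `‖j‖ ≥ ...`; any proof of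
`‖(j.factorial : ℚ_[p])‖ ≥ (p:ℝ)⁻¹ ^ j` will do, e.g. from `padicValNat_factorial` / `Padic.norm_eq_zpow_neg_valuation`). Put `e j = c j / j !`, so `‖e j‖ ≤ C * (p:ℝ)⁻¹ ^ j`. The falling factorial `t (t - 1) ⋯ (t - j + 1) = ∑ i ≤ j, s j i * t ^ i` with integer coefficients `s j i`
(`descPochhammer ℤ j`, coefficients; `Nat.descFactorial`, `descPochhammer_eval_eq_descFactorial`; `t.choose j * j ! = t.descFactorial j`), so for `t : ℕ`: `a t = ∑ i, b i * t ^ i`, where `b i = ∑' j, s j i * e j` (summable: in a complete ultrametric field a family tending to `0` is summable,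
`NonarchimedeanAddGroup.summable_of_tendsto_cofinite_zero`, or bound by the geometric series; `s j i = 0` for `j < i`), `‖b i‖ ≤ C * (p:ℝ)⁻¹ ^ i`. If some `b i ≠ 0` take the smallest `i`; for `t = m * p ^ k`, `k → ∞`: `0 = a t = t ^ i * (b i + t * (...))` with `‖...‖ ≤ C` bounded, so `‖b i‖ ≤ C * ‖t‖ → 0`, a contradiction.
So all `b i = 0` and `a t = 0` for all `t`.
Another way (avoid double series): for every polynomial degree bound `M` compare with the partial sum; or use `HasFPowerSeriesOnBall` and the isolation of zeros. Choose what is easiest.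
-/

set_option autoImplicit false

namespace Pool.Agent.Helper37.Fd

open Finset

section

variable (p : ℕ) [hp : Fact p.Prime] {E : Type*} [NontriviallyNormedField E]
    [IsUltrametricDist E] [CompleteSpace E] [NormedAlgebra ℚ_[p] E]

private theorem norm_nat_E (E : Type*) [NontriviallyNormedField E] [NormedAlgebra ℚ_[p] E]
    (n : ℕ) : ‖(n : E)‖ = ‖(n : ℚ_[p])‖ := by
  rw [← norm_algebraMap' E (n : ℚ_[p]), map_natCast]

private theorem norm_fact (E : Type*) [NontriviallyNormedField E] [NormedAlgebra ℚ_[p] E]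
    (j : ℕ) : ((p : ℝ)⁻¹) ^ j ≤ ‖(j.factorial : E)‖ := by
  have hp1 : (1 : ℝ) < p := by exact_mod_cast hp.out.one_lt
  have hp0 : (0 : ℝ) < p := by linarith
  rw [norm_nat_E p E]
  have hne : ((j.factorial : ℕ) : ℚ_[p]) ≠ 0 := by
    exact_mod_cast j.factorial_ne_zero
  rw [Padic.norm_eq_zpow_neg_valuation hne, Padic.valuation_natCast]
  have hv : padicValNat p j.factorial ≤ j := by
    have h1 := sub_one_mul_padicValNat_factorial (p := p) j
    have h2 : 1 ≤ p - 1 := by
      have := hp.out.two_le
      omega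
    calc padicValNat p j.factorial = 1 * padicValNat p j.factorial := (one_mul _).symm
      _ ≤ (p - 1) * padicValNat p j.factorial := Nat.mul_le_mul_right _ h2
      _ = j - (p.digits j).sum := h1
      _ ≤ j := Nat.sub_le _ _
  rw [zpow_neg, zpow_natCast, ← inv_pow]
  exact pow_le_pow_of_le_one (by positivity) (inv_le_one_of_one_le₀ hp1.le) hv

private theorem coeff_desc (E : Type*) [NontriviallyNormedField E] [IsUltrametricDist E]
    (j i : ℕ) : ‖(descPochhammer E j).coeff i‖ ≤ 1 := by
  rw [← descPochhammer_map (Int.castRingHom E) j, Polynomial.coeff_map]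
  exact IsUltrametricDist.norm_intCast_le_one E _

private theorem coeff_desc_zero (E : Type*) [NontriviallyNormedField E] {j i : ℕ} (h : j < i) :
    (descPochhammer E j).coeff i = 0 := by
  refine Polynomial.coeff_eq_zero_of_natDegree_lt ?_
  rw [descPochhammer_natDegree]
  exact h

end

theorem seq_zero (p : ℕ) [hp : Fact p.Prime] {E : Type*} [NontriviallyNormedField E]
    [IsUltrametricDist E] [CompleteSpace E] [NormedAlgebra ℚ_[p] E] (c : ℕ → E) (C : ℝ)
    (hc : ∀ j, ‖c j‖ ≤ C * ((p : ℝ)⁻¹ ^ 2) ^ j) (m : ℕ) (hm : 0 < m)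
    (h0 : ∀ s : ℕ, ∑ j ∈ Finset.range (m * s + 1), ((m * s).choose j : E) * c j = 0) (t : ℕ) :
    ∑ j ∈ Finset.range (t + 1), (t.choose j : E) * c j = 0 := by
  classical
  have hp1 : (1 : ℝ) < p := by exact_mod_cast hp.out.one_lt
  have hp0 : (0 : ℝ) < p := by linarith
  set q : ℝ := (p : ℝ)⁻¹ with hq
  have hq0 : 0 < q := inv_pos.2 hp0
  have hq1 : q < 1 := inv_lt_one_of_one_lt₀ hp1
  have hC : 0 ≤ C := by
    have h := hc 0
    simp at h
    exact le_trans (norm_nonneg _) h
  have hfac0 : ∀ j : ℕ, ((j.factorial : ℕ) : E) ≠ 0 := by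
    intro j h
    have h1 := norm_fact p E j
    rw [h, norm_zero] at h1
    have : 0 < ((p : ℝ)⁻¹) ^ j := by positivity
    linarith
  let e : ℕ → E := fun j => c j / (j.factorial : E)
  have he : ∀ j, ‖e j‖ ≤ C * q ^ j := by
    intro j
    show ‖c j / (j.factorial : E)‖ ≤ C * q ^ j
    rw [norm_div]
    have h1 : q ^ j ≤ ‖(j.factorial : E)‖ := norm_fact p E j
    have h2 : 0 < q ^ j := by positivity
    rw [div_le_iff₀ (lt_of_lt_of_le h2 h1)]
    calc ‖c j‖ ≤ C * (q ^ 2) ^ j := hc j
      _ = C * q ^ j * q ^ j := by ring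
      _ ≤ C * q ^ j * ‖(j.factorial : E)‖ := mul_le_mul_of_nonneg_left h1 (by positivity)
  let F : ℕ → Polynomial E := fun M => ∑ j ∈ range M, Polynomial.C (e j) * descPochhammer E j
  let b : ℕ → ℕ → E := fun M i => (F M).coeff i
  have hb : ∀ M i, b M i = ∑ j ∈ range M, e j * (descPochhammer E j).coeff i := by
    intro M i
    show (∑ j ∈ range M, Polynomial.C (e j) * descPochhammer E j).coeff i = _
    rw [Polynomial.finsetSum_coeff]
    exact Finset.sum_congr rfl fun j _ => Polynomial.coeff_C_mul _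
  have hterm : ∀ j i, ‖e j * (descPochhammer E j).coeff i‖ ≤ C * q ^ j := by
    intro j i
    rw [norm_mul]
    calc ‖e j‖ * ‖(descPochhammer E j).coeff i‖ ≤ (C * q ^ j) * 1 :=
          mul_le_mul (he j) (coeff_desc E j i) (norm_nonneg _) (by positivity)
      _ = C * q ^ j := mul_one _
  have hbC : ∀ M i, ‖b M i‖ ≤ C * q ^ i := by
    intro M i
    rw [hb]
    refine IsUltrametricDist.norm_sum_le_of_forall_le_of_nonneg (by positivity) fun j _ => ?_
    by_cases hji : j < i
    · rw [coeff_desc_zero E hji, mul_zero, norm_zero]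
      positivity
    · refine le_trans (hterm j i) (mul_le_mul_of_nonneg_left ?_ hC)
      exact pow_le_pow_of_le_one hq0.le hq1.le (by omega)
  have hbd : ∀ M M' i, M ≤ M' → ‖b M' i - b M i‖ ≤ C * q ^ M := by
    intro M M' i hMM
    rw [hb, hb, ← Finset.sum_Ico_eq_sub _ hMM]
    refine IsUltrametricDist.norm_sum_le_of_forall_le_of_nonneg (by positivity) fun j hj => ?_
    rw [Finset.mem_Ico] at hj
    refine le_trans (hterm j i) (mul_le_mul_of_nonneg_left ?_ hC)
    exact pow_le_pow_of_le_one hq0.le hq1.le hj.1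
  have heval : ∀ (M u : ℕ), (F M).eval (u : E) = ∑ j ∈ range M, (u.choose j : E) * c j := by
    intro M u
    show (∑ j ∈ range M, Polynomial.C (e j) * descPochhammer E j).eval (u : E) = _
    rw [Polynomial.eval_finsetSum]
    refine Finset.sum_congr rfl fun j _ => ?_
    rw [Polynomial.eval_mul, Polynomial.eval_C, descPochhammer_eval_eq_descFactorial,
      Nat.descFactorial_eq_factorial_mul_choose]
    push_cast
    show c j / (j.factorial : E) * ((j.factorial : E) * (u.choose j : E)) = _
    rw [← mul_assoc, div_mul_cancel₀ _ (hfac0 j), mul_comm]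
  have hdiff : ∀ (u M : ℕ), ‖(F M).eval (u : E) -
      ∑ j ∈ range (u + 1), (u.choose j : E) * c j‖ ≤ C * q ^ M := by
    intro u M
    rw [heval]
    rcases le_total M (u + 1) with hM | hM
    · rw [← norm_neg, neg_sub, ← Finset.sum_Ico_eq_sub _ hM]
      refine IsUltrametricDist.norm_sum_le_of_forall_le_of_nonneg (by positivity) fun j hj => ?_
      rw [Finset.mem_Ico] at hj
      rw [norm_mul]
      calc ‖((u.choose j : ℕ) : E)‖ * ‖c j‖ ≤ 1 * (C * (q ^ 2) ^ j) :=
            mul_le_mul (IsUltrametricDist.norm_natCast_le_one E _) (hc j) (norm_nonneg _)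
              zero_le_one
        _ = C * q ^ (2 * j) := by rw [one_mul, pow_mul]
        _ ≤ C * q ^ M := by
            refine mul_le_mul_of_nonneg_left ?_ hC
            exact pow_le_pow_of_le_one hq0.le hq1.le (by omega)
    · have hsub : ∑ j ∈ range (u + 1), (u.choose j : E) * c j =
          ∑ j ∈ range M, (u.choose j : E) * c j := by
        refine Finset.sum_subset (Finset.range_mono hM) fun j _ hj => ?_
        rw [Finset.mem_range, not_lt] at hj
        rw [Nat.choose_eq_zero_of_lt (by omega), Nat.cast_zero, zero_mul]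
      rw [hsub, sub_self, norm_zero]
      positivity
  -- the coefficients are small
  have hsmall : ∀ i M, ‖b M i‖ ≤ C * q ^ M := by
    intro i
    induction i using Nat.strong_induction_on with
    | _ i ih =>
    intro M
    set τ : ℕ := m * p ^ M with hτ
    set T : ℝ := ‖(τ : E)‖ with hT
    have hmE : ‖(m : E)‖ ≤ 1 := IsUltrametricDist.norm_natCast_le_one E m
    have hpE : ‖(p : E)‖ = q := by rw [norm_nat_E p E, Padic.norm_p]
    have hTle : T ≤ q ^ M := by
      rw [hT, hτ]
      push_cast
      rw [norm_mul, norm_pow, hpE]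
      calc ‖(m : E)‖ * q ^ M ≤ 1 * q ^ M := mul_le_mul_of_nonneg_right hmE (by positivity)
        _ = q ^ M := one_mul _
    have hT0 : 0 < T := by
      rw [hT, norm_nat_E p E]
      have : (τ : ℚ_[p]) ≠ 0 := by
        have h1 : τ ≠ 0 := by
          rw [hτ]
          exact Nat.mul_ne_zero hm.ne' (pow_ne_zero _ hp.out.ne_zero)
        exact_mod_cast h1
      exact norm_pos_iff.2 this
    have hT1 : T ≤ 1 := le_trans hTle (pow_le_one₀ hq0.le hq1.le)
    obtain ⟨K, hK⟩ := exists_pow_lt_of_lt_one (show 0 < q ^ M * T ^ i by positivity) hq1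
    set M' : ℕ := M + K with hM'
    have hqM' : q ^ M' ≤ q ^ M * T ^ i := by
      refine le_trans ?_ hK.le
      exact pow_le_pow_of_le_one hq0.le hq1.le (by omega)
    have hev : ‖(F M').eval (τ : E)‖ ≤ C * q ^ M' := by
      have h1 := hdiff τ M'
      rw [hτ, h0 (p ^ M), sub_zero] at h1
      exact h1
    set n : ℕ := (F M').natDegree + 1 + (i + 1) with hn
    have hsum : (F M').eval (τ : E) = ∑ i' ∈ range n, b M' i' * (τ : E) ^ i' :=
      Polynomial.eval_eq_sum_range' (by omega) _
    have hin : i ∈ range n := by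
      rw [Finset.mem_range]
      omega
    rw [← Finset.add_sum_erase _ _ hin] at hsum
    have hD0 : 0 ≤ C * q ^ M * T ^ i := by positivity
    have hrest : ‖∑ i' ∈ (range n).erase i, b M' i' * (τ : E) ^ i'‖ ≤ C * q ^ M * T ^ i := by
      refine IsUltrametricDist.norm_sum_le_of_forall_le_of_nonneg hD0 fun i' hi' => ?_
      rw [Finset.mem_erase] at hi'
      rw [norm_mul, norm_pow]
      rcases lt_or_gt_of_ne hi'.1 with hlt | hgt
      · calc ‖b M' i'‖ * ‖(τ : E)‖ ^ i' ≤ (C * q ^ M') * 1 :=
              mul_le_mul (ih i' hlt M') (pow_le_one₀ (norm_nonneg _) hT1) (by positivity)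
                (by positivity)
          _ = C * q ^ M' := mul_one _
          _ ≤ C * (q ^ M * T ^ i) := mul_le_mul_of_nonneg_left hqM' hC
          _ = C * q ^ M * T ^ i := by ring
      · calc ‖b M' i'‖ * ‖(τ : E)‖ ^ i' ≤ C * T ^ (i + 1) := by
              refine mul_le_mul ?_ ?_ (by positivity) hC
              · calc ‖b M' i'‖ ≤ C * q ^ i' := hbC M' i'
                  _ ≤ C * 1 := mul_le_mul_of_nonneg_left (pow_le_one₀ hq0.le hq1.le) hC
                  _ = C := mul_one _
              · exact pow_le_pow_of_le_one hT0.le hT1 hgt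
          _ = C * T * T ^ i := by ring
          _ ≤ C * q ^ M * T ^ i := by
              refine mul_le_mul_of_nonneg_right ?_ (by positivity)
              exact mul_le_mul_of_nonneg_left hTle hC
    have hmain : ‖b M' i * (τ : E) ^ i‖ ≤ C * q ^ M * T ^ i := by
      have h1 : b M' i * (τ : E) ^ i = (F M').eval (τ : E) +
          -∑ i' ∈ (range n).erase i, b M' i' * (τ : E) ^ i' := by
        rw [hsum]
        ring
      rw [h1]
      refine le_trans (IsUltrametricDist.norm_add_le_max _ _) (max_le ?_ ?_)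
      · calc ‖(F M').eval (τ : E)‖ ≤ C * q ^ M' := hev
          _ ≤ C * (q ^ M * T ^ i) := mul_le_mul_of_nonneg_left hqM' hC
          _ = C * q ^ M * T ^ i := by ring
      · rw [norm_neg]
        exact hrest
    have hM'b : ‖b M' i‖ ≤ C * q ^ M := by
      rw [norm_mul, norm_pow] at hmain
      exact le_of_mul_le_mul_right hmain (by positivity)
    have h2 : b M i = b M' i + -(b M' i - b M i) := by ring
    rw [h2]
    refine le_trans (IsUltrametricDist.norm_add_le_max _ _) (max_le hM'b ?_)
    rw [norm_neg]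
    exact hbd M M' i (by omega)
  -- conclusion
  have hlim : Filter.Tendsto (fun M : ℕ => C * q ^ M) Filter.atTop (nhds 0) := by
    have h1 := (tendsto_pow_atTop_nhds_zero_of_lt_one hq0.le hq1).const_mul C
    rwa [mul_zero] at h1
  have hle : ‖∑ j ∈ Finset.range (t + 1), (t.choose j : E) * c j‖ ≤ 0 := by
    refine ge_of_tendsto' hlim fun M => ?_
    have h1 : ‖(F M).eval (t : E)‖ ≤ C * q ^ M := by
      rw [Polynomial.eval_eq_sum_range]
      refine IsUltrametricDist.norm_sum_le_of_forall_le_of_nonneg (by positivity) fun i _ => ?_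
      rw [norm_mul, norm_pow]
      calc ‖(F M).coeff i‖ * ‖(t : E)‖ ^ i ≤ (C * q ^ M) * 1 :=
            mul_le_mul (hsmall i M)
              (pow_le_one₀ (norm_nonneg _) (IsUltrametricDist.norm_natCast_le_one E t))
              (by positivity) (by positivity)
        _ = C * q ^ M := mul_one _
    have h2 : ∑ j ∈ Finset.range (t + 1), (t.choose j : E) * c j = (F M).eval (t : E) +
        -((F M).eval (t : E) - ∑ j ∈ range (t + 1), (t.choose j : E) * c j) := by ring
    rw [h2]
    refine le_trans (IsUltrametricDist.norm_add_le_max _ _) (max_le h1 ?_)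
    rw [norm_neg]
    exact hdiff t M
  exact norm_le_zero_iff.1 hle

end Pool.Agent.Helper37.Fd
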