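import Pool.Agent.Helper37.Fc.StabF
import Pool.Agent.Helper37.Fd.SeqZero

/-!
# Project FMD (MP_b583a4_nt), module Conn: a function with few translates vanishing near a point

PLAN. `rt h` is `E`-linear on functions; let `T : C(G, E) →ₗ[E] C(G, E)` be `rt h`, `c j = ((T - 1) ^ j f) g`. By induction `(T - 1) ^ j f ∈ S` and `‖(T - 1) ^ j f‖ ≤ ((p : ℝ)⁻¹ ^ 2) ^ j * ‖f‖`. `T ^ t f = rt (h ^ t) f`, and `T ^ t = (1 + (T - 1)) ^ t = ∑ j ≤ t, (t.choose j) • (T - 1) ^ j`
(`Commute.add_pow`, `Commute.one_left`), so `f (g * h ^ t) = ∑ j ∈ range (t + 1), (t.choose j) * c j`. The open subgroup `N'` of the compact group `G` has finite index, so `h ^ m ∈ N'` for some `m > 0` (`Subgroup.exists_pow_mem_of_index_ne_zero`); apply `seq_zero` with this `m` (`h ^ (m * s) ∈ N'`), and take `t = 1`.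
-/

set_option autoImplicit false

namespace Pool.Agent.Helper37.Fd

open Pool.Agent.Helper37.Fc

private noncomputable def rtL {E : Type*} [NontriviallyNormedField E] {G : Type*} [Group G]
    [TopologicalSpace G] [IsTopologicalGroup G] (h : G) : Module.End E C(G, E) where
  toFun f := ⟨fun g => f (g * h), f.continuous.comp (continuous_mul_const h)⟩
  map_add' _ _ := rfl
  map_smul' _ _ := rfl

private theorem rtL_pow {E : Type*} [NontriviallyNormedField E] {G : Type*} [Group G]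
    [TopologicalSpace G] [IsTopologicalGroup G] (h : G) (t : ℕ) (f : C(G, E)) (g : G) :
    ((rtL h : Module.End E C(G, E)) ^ t) f g = f (g * h ^ t) := by
  induction t generalizing g with
  | zero => simp
  | succ t ih =>
    rw [pow_succ', Module.End.mul_apply]
    change ((rtL h : Module.End E C(G, E)) ^ t) f (g * h) = _
    rw [ih, mul_assoc, ← pow_succ']

theorem conn_zero (p : ℕ) [hp : Fact p.Prime] {E : Type*} [NontriviallyNormedField E]
    [IsUltrametricDist E] [CompleteSpace E] [NormedAlgebra ℚ_[p] E] {G : Type*} [Group G]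
    [TopologicalSpace G] [IsTopologicalGroup G] [CompactSpace G] {f : C(G, E)}
    {S : Submodule E C(G, E)} (hf : f ∈ S) (hS : ∀ h, ∀ s ∈ S, rt h s ∈ S) {g h : G}
    (hh : ∀ s ∈ S, ‖rt h s - s‖ ≤ (p : ℝ)⁻¹ ^ 2 * ‖s‖) {N : Subgroup G} (hN : IsOpen (N : Set G))
    (h0 : ∀ u ∈ N, f (g * u) = 0) : f (g * h) = 0 := by
  obtain ⟨m, hm, hmN⟩ : ∃ m : ℕ, 0 < m ∧ h ^ m ∈ N := by
    haveI : Finite (G ⧸ N) := Subgroup.quotient_finite_of_isOpen N hN
    haveI : N.FiniteIndex := Subgroup.finiteIndex_of_finite_quotient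
    obtain ⟨m, hm, -, hmem⟩ := Subgroup.exists_pow_mem_of_index_ne_zero
      (H := N) Subgroup.FiniteIndex.index_ne_zero h
    exact ⟨m, hm, hmem⟩
  let T : Module.End E C(G, E) := rtL h
  let v : ℕ → C(G, E) := fun j => ((T - 1) ^ j) f
  have hv : ∀ j, v j ∈ S ∧ ‖v j‖ ≤ ‖f‖ * ((p : ℝ)⁻¹ ^ 2) ^ j := by
    intro j
    induction j with
    | zero => exact ⟨by simpa [v] using hf, by simp [v]⟩
    | succ j ih =>
      have e : v (j + 1) = rt h (v j) - v j := by
        simp only [v]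
        rw [pow_succ', Module.End.mul_apply]
        rfl
      rw [e]
      refine ⟨S.sub_mem (hS h _ ih.1) ih.1, (hh _ ih.1).trans ?_⟩
      calc (p : ℝ)⁻¹ ^ 2 * ‖v j‖ ≤ (p : ℝ)⁻¹ ^ 2 * (‖f‖ * ((p : ℝ)⁻¹ ^ 2) ^ j) :=
            mul_le_mul_of_nonneg_left ih.2 (by positivity)
        _ = ‖f‖ * ((p : ℝ)⁻¹ ^ 2) ^ (j + 1) := by ring
  have key : ∀ t : ℕ, ∑ j ∈ Finset.range (t + 1), (t.choose j : E) * (v j g) = f (g * h ^ t) := by
    intro t
    rw [← rtL_pow h t f g]
    have e : (rtL h : Module.End E C(G, E)) ^ t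
        = ∑ j ∈ Finset.range (t + 1), (t.choose j : E) • (T - 1) ^ j := by
      have e1 : (rtL h : Module.End E C(G, E)) = (T - 1) + 1 := by
        simp [T]
      rw [e1, (Commute.one_right (T - 1)).add_pow]
      refine Finset.sum_congr rfl fun j _ => ?_
      rw [one_pow, mul_one, ← Nat.cast_comm, ← nsmul_eq_mul, Nat.cast_smul_eq_nsmul]
    rw [e, LinearMap.sum_apply, ContinuousMap.sum_apply]
    rfl
  have hz := seq_zero p (fun j => v j g) ‖f‖
    (fun j => ((v j).norm_coe_le_norm g).trans (hv j).2) m hm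
    (fun s => by
      rw [key]
      exact h0 _ (by rw [pow_mul]; exact N.pow_mem hmN s)) 1
  rw [key 1, pow_one] at hz
  exact hz

end Pool.Agent.Helper37.Fd
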