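import Pool.Agent.Helper37.Fc.StabF

/-!
# Project FMD (MP_b583a4_nt), module CosetDet: a finite part of `D` determines functions on a coset in which `D` is dense up to a small part

PLAN. `K = A.card ^ m`. Let `𝒰` be the set of the open subgroups of `G` of index `≤ K * U.index` (finite by `hfin`), `N = sInf 𝒰`, an open subgroup (see the proof of `finite_determination` in `Pool/Agent/Helper37/Fc/FinDet.lean`). `G ⧸ N` is finite; for each class `q` such that some `x ∈ D` in the class satisfies `g⁻¹ * x ∈ U`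
choose one; `R` = the set of the chosen elements.
Let `f, S` be given, `f = 0` on `R`, and suppose `f x ≠ 0` for some `x ∈ g U`. Let `f' : C(U, E)`, `f' u = f (g * u)` (`U` is compact: an open subgroup is closed, `Subgroup.isClosed_of_isOpen`, `isCompact_iff_compactSpace`), `S'` the image of `S` under the linear map `s ↦ (u ↦ s (g * u))`: finite dimensional, `finrank ≤ m`
(`Submodule.finrank_map_le`), `rt u f' ∈ S'` for `u : U`. Scale `f'` (and nothing else: `S'` is a subspace) so that `‖f'‖ = 1`; `‖f' u₀‖ = 1` for some `u₀` (the norm is attained: compare FinDet.lean). `exists_stab` (for the group `U`) gives `H : Subgroup U`, open, `H.index ≤ A.card ^ finrank ≤ K`, with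
`‖f' (u * h) - f' u‖ < 1` for `h ∈ H`. `H' = H.map U.subtype` is open in `G` (`U` open), of index `H.index * U.index ≤ K * U.index` (`Subgroup.index_map_subtype` or `relIndex_mul_index`), so `N ≤ H'`. Claim: `g u₀ H'` does not meet `closure D`: let `z` be in both; `z N` is an open neighbourhood of `z`, and so is `g U`, so
there is `x ∈ D ∩ z N ∩ g U`, hence a chosen `r ∈ R` in the class `z N` with `g⁻¹ * r ∈ U`, `f r = 0`. `r = z * n`, `n ∈ N ≤ H'`, so `r = g * u₀ * h`, `h ∈ H'`: `‖f' (u₀ * h) - f' u₀‖ < 1` gives `‖0 - f' u₀‖ < 1`, a contradiction (as `f' (u₀ * h)` is a multiple of `f r = 0`). So `g u₀ H' ⊆ g U \ closure D`, and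
`μ U = H.index * μ H' ≤ K * μ (g U \ closure D)` (`U` is the union of `H.index` left cosets of `H'`; `measure_biUnion_le`, `μ (x H') = μ H'` by left invariance), contradicting `hK`.
-/

set_option autoImplicit false
open MeasureTheory

namespace Pool.Agent.Helper37.Fd

open Pool.Agent.Helper37.Fc

/-- representatives of the classes -/
private theorem cd_reps {G : Type*} [Group G] (D V : Set G) (N : Subgroup G) [Finite (G ⧸ N)] :
    ∃ R : Set G, R ⊆ D ∧ R.Finite ∧ ∀ x ∈ D, x ∈ V → ∃ r ∈ R, r ∈ V ∧ x⁻¹ * r ∈ N := by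
  classical
  have h1 : ∀ q : G ⧸ N, ∃ r : G, (∃ x ∈ D, x ∈ V ∧ (x : G ⧸ N) = q) →
      (r ∈ D ∧ r ∈ V ∧ (r : G ⧸ N) = q) := by
    intro q
    by_cases h : ∃ x ∈ D, x ∈ V ∧ (x : G ⧸ N) = q
    · obtain ⟨x, hx⟩ := h
      exact ⟨x, fun _ => hx⟩
    · exact ⟨1, fun h' => absurd h' h⟩
  choose r hr using h1
  refine ⟨r '' {q | ∃ x ∈ D, x ∈ V ∧ (x : G ⧸ N) = q}, ?_, Set.toFinite _, ?_⟩
  · rintro _ ⟨q, hq, rfl⟩
    exact (hr q hq).1
  · intro x hxD hxV
    have hq : ∃ y ∈ D, y ∈ V ∧ (y : G ⧸ N) = (x : G ⧸ N) := ⟨x, hxD, hxV, rfl⟩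
    obtain ⟨h2, h3, h4⟩ := hr _ hq
    refine ⟨r (x : G ⧸ N), ⟨_, hq, rfl⟩, h3, ?_⟩
    exact QuotientGroup.eq.1 h4.symm

/-- translation and restriction to a subgroup -/
private def trl {E : Type*} [NontriviallyNormedField E] {G : Type*} [Group G] [TopologicalSpace G]
    [IsTopologicalGroup G] (U : Subgroup G) (g : G) : C(G, E) →ₗ[E] C(U, E) where
  toFun s := ⟨fun u => s (g * u), s.continuous.comp (continuous_const.mul continuous_subtype_val)⟩
  map_add' s t := rfl
  map_smul' c s := rfl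

/-- covering by cosets -/
private theorem cd_cover {G : Type*} [Group G] [TopologicalSpace G] [IsTopologicalGroup G]
    [MeasurableSpace G] [BorelSpace G] (μ : Measure G) [μ.IsHaarMeasure] (U : Subgroup G)
    (H : Subgroup U) [Finite (U ⧸ H)] :
    μ (U : Set G) ≤ (H.index : ENNReal) * μ ((H.map U.subtype : Subgroup G) : Set G) := by
  classical
  haveI : Fintype (U ⧸ H) := Fintype.ofFinite _
  have hsub : (U : Set G) ⊆ ⋃ q : U ⧸ H, (fun x => ((q.out : U) : G)⁻¹ * x) ⁻¹'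
      ((H.map U.subtype : Subgroup G) : Set G) := by
    intro x hx
    rw [Set.mem_iUnion]
    refine ⟨((⟨x, hx⟩ : U) : U ⧸ H), ?_⟩
    have h1 : ((((⟨x, hx⟩ : U) : U ⧸ H)).out)⁻¹ * (⟨x, hx⟩ : U) ∈ H := by
      rw [← QuotientGroup.eq, QuotientGroup.out_eq']
    exact Subgroup.mem_map.2 ⟨_, h1, rfl⟩
  calc μ (U : Set G) ≤ μ (⋃ q : U ⧸ H, (fun x => ((q.out : U) : G)⁻¹ * x) ⁻¹'
      ((H.map U.subtype : Subgroup G) : Set G)) := measure_mono hsub
    _ ≤ ∑' q : U ⧸ H, μ ((fun x => ((q.out : U) : G)⁻¹ * x) ⁻¹'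
      ((H.map U.subtype : Subgroup G) : Set G)) := measure_iUnion_le _
    _ = ∑' _q : U ⧸ H, μ ((H.map U.subtype : Subgroup G) : Set G) := by
        apply tsum_congr
        intro q
        exact measure_preimage_mul μ _ _
    _ = (H.index : ENNReal) * μ ((H.map U.subtype : Subgroup G) : Set G) := by
        rw [tsum_fintype, Finset.sum_const, Finset.card_univ, nsmul_eq_mul, Subgroup.index,
          Nat.card_eq_fintype_card]

theorem coset_determination {E : Type*} [NontriviallyNormedField E] [IsUltrametricDist E]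
    {G : Type*} [Group G] [TopologicalSpace G] [IsTopologicalGroup G] [CompactSpace G]
    [MeasurableSpace G] [BorelSpace G] (μ : Measure G) [μ.IsHaarMeasure]
    (hfin : ∀ m : ℕ, {U : Subgroup G | IsOpen (U : Set G) ∧ U.index ≤ m}.Finite)
    (A : Finset E) (hA : ∀ x : E, ‖x‖ ≤ 1 → ∃ a ∈ A, ‖x - a‖ < 1) {D : Set G} {U : Subgroup G}
    (hU : IsOpen (U : Set G)) {g : G} (m : ℕ)
    (hK : ((A.card ^ m : ℕ) : ENNReal) * μ ({x | g⁻¹ * x ∈ U} \ closure D) < μ (U : Set G)) :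
    ∃ R : Set G, R ⊆ D ∧ R.Finite ∧ ∀ (f : C(G, E)) (S : Submodule E C(G, E)),
      FiniteDimensional E S → Module.finrank E S ≤ m → (∀ h, rt h f ∈ S) →
      (∀ r ∈ R, f r = 0) → ∀ x, g⁻¹ * x ∈ U → f x = 0 := by
  classical
  have hAcard : 1 ≤ A.card := by
    obtain ⟨a, ha, _⟩ := hA 0 (by simp)
    exact Finset.card_pos.mpr ⟨a, ha⟩
  set 𝒰 := {H : Subgroup G | IsOpen (H : Set G) ∧ H.index ≤ A.card ^ m * U.index} with h𝒰
  have hNo : IsOpen ((sInf 𝒰 : Subgroup G) : Set G) := by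
    rw [Subgroup.coe_sInf]
    exact (hfin _).isOpen_biInter fun U hU => hU.1
  haveI hfinN : Finite (G ⧸ (sInf 𝒰 : Subgroup G)) := Subgroup.quotient_finite_of_isOpen _ hNo
  obtain ⟨R, hRD, hRf, hR⟩ := cd_reps D {x | g⁻¹ * x ∈ U} (sInf 𝒰 : Subgroup G)
  refine ⟨R, hRD, hRf, fun f S hS hfr hSf hr x hx => ?_⟩
  by_contra hfx
  haveI hUc : CompactSpace U := isCompact_iff_compactSpace.1
    ((Subgroup.isClosed_of_isOpen U hU).isCompact)
  set f' : C(U, E) := trl U g f with hf'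
  have hf'v : ∀ u : U, f' u = f (g * u) := fun u => rfl
  set S' : Submodule E C(U, E) := S.map (trl U g) with hS'
  haveI hfdS' : FiniteDimensional E S' := inferInstance
  have hfrS' : Module.finrank E S' ≤ m := (Submodule.finrank_map_le _ _).trans hfr
  have hrt : ∀ u : U, rt u f' ∈ S' := by
    intro u
    refine Submodule.mem_map.2 ⟨rt (u : G) f, hSf _, ?_⟩
    ext v
    have e1 : (trl U g (rt (u : G) f) : C(U, E)) v = f (g * v * u) := rfl
    have e2 : (rt u f' : C(U, E)) v = f (g * ((v * u : U) : G)) := rfl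
    rw [e1, e2, Subgroup.coe_mul, mul_assoc]
  obtain ⟨u₀, -, hu₀⟩ := isCompact_univ.exists_isMaxOn (Set.univ_nonempty (α := U))
    (f'.continuous.norm.continuousOn)
  have hmax : ∀ u, ‖f' u‖ ≤ ‖f' u₀‖ := fun u => hu₀ (Set.mem_univ u)
  have hne : f' u₀ ≠ 0 := by
    intro h0
    apply hfx
    have h1 := hmax ⟨g⁻¹ * x, hx⟩
    rw [h0, norm_zero, hf'v] at h1
    have h2 := norm_le_zero_iff.mp h1
    simpa using h2
  set f₂ : C(U, E) := (f' u₀)⁻¹ • f' with hf₂
  have hf₂v : ∀ u, f₂ u = (f' u₀)⁻¹ * f' u := fun u => rfl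
  have hf₂n : ‖f₂‖ ≤ 1 := by
    rw [ContinuousMap.norm_le _ zero_le_one]
    intro u
    rw [hf₂v, norm_mul, norm_inv]
    rw [inv_mul_le_iff₀ (norm_pos_iff.mpr hne), mul_one]
    exact hmax u
  obtain ⟨H, hHo, hHi, hH⟩ := exists_stab A hA f₂ hf₂n S' (fun h => by
    have e : rt h f₂ = (f' u₀)⁻¹ • rt h f' := rfl
    rw [e]
    exact S'.smul_mem _ (hrt h))
  have hHi' : H.index ≤ A.card ^ m := hHi.trans (Nat.pow_le_pow_right hAcard hfrS')
  have hH'o : IsOpen ((H.map U.subtype : Subgroup G) : Set G) := by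
    rw [Subgroup.coe_map]
    exact hU.isOpenMap_subtype_val _ hHo
  have hH'U : (H.map U.subtype : Subgroup G) ∈ 𝒰 := by
    refine ⟨hH'o, ?_⟩
    rw [Subgroup.index_map_subtype]
    exact Nat.mul_le_mul_right _ hHi'
  have hNH : (sInf 𝒰 : Subgroup G) ≤ H.map U.subtype := sInf_le hH'U
  -- the coset does not meet the closure
  have hC : (fun z => (g * (u₀ : G))⁻¹ * z) ⁻¹' ((H.map U.subtype : Subgroup G) : Set G) ⊆
      {x | g⁻¹ * x ∈ U} \ closure D := by
    intro z hz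
    have hz' : (g * (u₀ : G))⁻¹ * z ∈ H.map U.subtype := hz
    have hzU : g⁻¹ * z ∈ U := by
      obtain ⟨h, hh, he⟩ := Subgroup.mem_map.1 hz'
      have h1 : g⁻¹ * z = (u₀ : G) * (h : G) := by
        have he' : (h : G) = (g * (u₀ : G))⁻¹ * z := he
        rw [he']
        group
      rw [h1]
      exact U.mul_mem u₀.2 h.2
    refine ⟨hzU, fun hzD => ?_⟩
    have hV : IsOpen ({x : G | z⁻¹ * x ∈ (sInf 𝒰 : Subgroup G)} ∩ {x : G | g⁻¹ * x ∈ U}) :=
      (hNo.preimage (continuous_const_mul _)).inter (hU.preimage (continuous_const_mul _))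
    obtain ⟨y, ⟨hy1, hy2⟩, hyD⟩ := mem_closure_iff.1 hzD _ hV
      ⟨by simp [Subgroup.one_mem], hzU⟩
    obtain ⟨r, hrR, hrU, hrN⟩ := hR y hyD hy2
    have hzr : z⁻¹ * r ∈ (sInf 𝒰 : Subgroup G) := by
      have h1 := Subgroup.mul_mem _ hy1 hrN
      have e : z⁻¹ * y * (y⁻¹ * r) = z⁻¹ * r := by group
      rwa [e] at h1
    have h2 : (g * (u₀ : G))⁻¹ * r ∈ H.map U.subtype := by
      have h1 := Subgroup.mul_mem _ hz' (hNH hzr)
      have e : (g * (u₀ : G))⁻¹ * z * (z⁻¹ * r) = (g * (u₀ : G))⁻¹ * r := by group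
      rwa [e] at h1
    obtain ⟨h, hh, he⟩ := Subgroup.mem_map.1 h2
    have he' : (h : G) = (g * (u₀ : G))⁻¹ * r := he
    have h3 : f' (u₀ * h) = 0 := by
      rw [hf'v, Subgroup.coe_mul, he']
      have e : g * ((u₀ : G) * ((g * (u₀ : G))⁻¹ * r)) = r := by group
      rw [e]
      exact hr r hrR
    have h4 := hH h hh u₀
    rw [hf₂v, hf₂v, h3, mul_zero, inv_mul_cancel₀ hne, zero_sub, norm_neg, norm_one] at h4
    exact lt_irrefl _ h4
  haveI hfinH : Finite (U ⧸ H) := Subgroup.quotient_finite_of_isOpen _ hHo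
  have h5 := cd_cover μ U H
  have h6 : μ ((H.map U.subtype : Subgroup G) : Set G) ≤ μ ({x | g⁻¹ * x ∈ U} \ closure D) := by
    rw [← measure_preimage_mul μ (g * (u₀ : G))⁻¹ ((H.map U.subtype : Subgroup G) : Set G)]
    exact measure_mono hC
  have h7 : (H.index : ENNReal) ≤ ((A.card ^ m : ℕ) : ENNReal) := by exact_mod_cast hHi'
  exact absurd (h5.trans (mul_le_mul' h7 h6)) (not_le.2 hK)

end Pool.Agent.Helper37.Fd
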