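import Mathlib

/-!
# Project FMD (MP_b583a4_nt), module Dens: density points for Haar measure on a profinite group (Mathlib only)

`g U` is written `{x | g⁻¹ * x ∈ U}`.

PLAN. `Z₀ = Z ∩ g₀ U₀` is compact of positive finite measure. By outer regularity there is an open `O ⊇ Z₀` with `K * (μ O - μ Z₀) < μ Z₀` (`Set.exists_isOpen_lt_of_lt` / `IsCompact.exists_isOpen_lt_add` / `exists_isOpen_lt_add`). By compactness a neighbourhood `V` of `1` satisfies `Z₀ * V ⊆ O ∩ g₀ U₀` (`compact_open_separated_mul_right`),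
and `V` contains an open (normal) subgroup `U`, `U ≤ U₀` (`ProfiniteGrp.exist_openNormalSubgroup_sub_open_nhds_of_one`, applied to an open part of `V ∩ U₀`). `W = Z₀ * U` is a finite disjoint union of cosets `g U`, each meeting `Z₀`, contained in `g₀ U₀` (`μ (g U) = μ U`, `G ⧸ U` finite). If the assertion were false then `μ (g U) ≤ K * μ (g U \ Z)`
for every coset meeting `Z₀`; summing, `μ Z₀ ≤ μ W ≤ K * μ (W \ Z) ≤ K * μ (O \ Z₀)`, since `W ⊆ g₀ U₀` gives `W \ Z = W \ Z₀`; a contradiction. (For `K = 0` the assertion is `0 < μ U`, true for open sets; the argument covers it.)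
-/

set_option autoImplicit false
open MeasureTheory

namespace Pool.Agent.Helper37.Fd

theorem exists_dense_coset {G : Type*} [Group G] [TopologicalSpace G] [IsTopologicalGroup G]
    [CompactSpace G] [TotallyDisconnectedSpace G] [MeasurableSpace G] [BorelSpace G]
    (μ : Measure G) [μ.IsHaarMeasure] [μ.Regular] {Z : Set G} (hZ : IsClosed Z)
    {U₀ : Subgroup G} (hU₀ : IsOpen (U₀ : Set G)) {g₀ : G}
    (hpos : μ (Z ∩ {x | g₀⁻¹ * x ∈ U₀}) ≠ 0) (K : ℕ) :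
    ∃ (U : Subgroup G) (g : G), IsOpen (U : Set G) ∧ U ≤ U₀ ∧ g₀⁻¹ * g ∈ U₀ ∧
      (K : ENNReal) * μ ({x | g⁻¹ * x ∈ U} \ Z) < μ (U : Set G) := by
  classical
  have : IsFiniteMeasure μ := ⟨isCompact_univ.measure_lt_top⟩
  have hCo : IsOpen {x | g₀⁻¹ * x ∈ U₀} := hU₀.preimage (continuous_const_mul g₀⁻¹)
  have hCc : IsClosed {x | g₀⁻¹ * x ∈ U₀} :=
    (U₀.isClosed_of_isOpen hU₀).preimage (continuous_const_mul g₀⁻¹)
  set C : Set G := {x | g₀⁻¹ * x ∈ U₀} with hC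
  set Z₀ : Set G := Z ∩ C with hZ₀
  have hZ₀c : IsClosed Z₀ := hZ.inter hCc
  have hZ₀k : IsCompact Z₀ := hZ₀c.isCompact
  obtain ⟨ε, hε0, hε⟩ := ENNReal.exists_nnreal_pos_mul_lt (ENNReal.natCast_ne_top K) hpos
  obtain ⟨O, hZO, hOo, hOlt⟩ := Set.exists_isOpen_lt_add (μ := μ) Z₀ (measure_ne_top μ _)
    (ε := (ε : ENNReal)) (by exact_mod_cast hε0.ne')
  have hdiff : μ (O \ Z₀) ≤ ε := by
    rw [measure_sdiff hZO hZ₀c.measurableSet.nullMeasurableSet (measure_ne_top μ _)]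
    rw [tsub_le_iff_left]
    exact hOlt.le
  have hO'o : IsOpen (O ∩ C) := hOo.inter hCo
  have hZO' : Z₀ ⊆ O ∩ C := fun x hx => ⟨hZO hx, hx.2⟩
  obtain ⟨V, hV, hZV⟩ := compact_open_separated_mul_right hZ₀k hO'o hZO'
  obtain ⟨V', hV'V, hV'o, hV'1⟩ := mem_nhds_iff.1 hV
  obtain ⟨H, hH⟩ := ProfiniteGrp.exist_openNormalSubgroup_sub_open_nhds_of_one (G := G)
    (hV'o.inter hU₀) ⟨hV'1, U₀.one_mem⟩
  set U : Subgroup G := H.toSubgroup with hU
  have hUo : IsOpen (U : Set G) := H.isOpen'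
  have hUV : (U : Set G) ⊆ V := fun x hx => hV'V (hH hx).1
  have hUU₀ : U ≤ U₀ := fun x hx => (hH hx).2
  by_contra hcon
  push Not at hcon
  have hcon' : ∀ z ∈ Z₀, μ (U : Set G) ≤ (K : ENNReal) * μ ({x | z⁻¹ * x ∈ U} \ Z) :=
    fun z hz => hcon U z hUo hUU₀ hz.2
  have : Finite (G ⧸ U) := Subgroup.quotient_finite_of_isOpen U hUo
  have : Fintype (G ⧸ U) := Fintype.ofFinite _
  set S : Finset (G ⧸ U) := Finset.univ.filter (fun s => ∃ z ∈ Z₀, (QuotientGroup.mk z : G ⧸ U) = s)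
    with hS
  set F : G ⧸ U → Set G := fun s => {x | (QuotientGroup.mk x : G ⧸ U) = s} with hF
  have hFz : ∀ z : G, F (QuotientGroup.mk z) = {x | z⁻¹ * x ∈ U} := by
    intro z
    ext x
    simp only [hF, Set.mem_setOf_eq]
    rw [eq_comm, QuotientGroup.eq]
  have hFo : ∀ s, IsOpen (F s) := by
    intro s
    obtain ⟨z, rfl⟩ := QuotientGroup.mk_surjective s
    rw [hFz]
    exact hUo.preimage (continuous_const_mul z⁻¹)
  have hFμ : ∀ z : G, μ (F (QuotientGroup.mk z)) = μ (U : Set G) := by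
    intro z
    rw [hFz]
    exact measure_preimage_mul μ z⁻¹ (U : Set G)
  have h1 : μ Z₀ ≤ μ (⋃ s ∈ S, F s) := by
    refine measure_mono fun x hx => ?_
    simp only [Set.mem_iUnion]
    exact ⟨QuotientGroup.mk x, Finset.mem_filter.2 ⟨Finset.mem_univ _, x, hx, rfl⟩, rfl⟩
  have h2 : μ (⋃ s ∈ S, F s) ≤ ∑ s ∈ S, μ (F s) := measure_biUnion_finset_le S F
  have h3 : ∑ s ∈ S, μ (F s) ≤ ∑ s ∈ S, (K : ENNReal) * μ (F s \ Z) := by
    refine Finset.sum_le_sum fun s hs => ?_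
    obtain ⟨z, hz, rfl⟩ := (Finset.mem_filter.1 hs).2
    rw [hFμ, hFz]
    exact hcon' z hz
  have h4 : ∑ s ∈ S, (K : ENNReal) * μ (F s \ Z) = K * μ (⋃ s ∈ S, (F s \ Z)) := by
    rw [← Finset.mul_sum, measure_biUnion_finset]
    · intro s _ t _ hst
      refine Set.disjoint_left.2 fun x hx hy => hst ?_
      exact hx.1.symm.trans hy.1
    · intro s _
      exact (hFo s).measurableSet.diff hZ.measurableSet
  have h5 : (⋃ s ∈ S, (F s \ Z)) ⊆ O \ Z₀ := by
    intro x hx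
    simp only [Set.mem_iUnion] at hx
    obtain ⟨s, hs, hxs, hxZ⟩ := hx
    obtain ⟨z, hz, rfl⟩ := (Finset.mem_filter.1 hs).2
    rw [hFz] at hxs
    have : x ∈ O ∩ C := hZV ⟨z, hz, z⁻¹ * x, hUV hxs, by simp⟩
    exact ⟨this.1, fun h => hxZ h.1⟩
  have h6 : μ Z₀ ≤ (K : ENNReal) * ε :=
    (h1.trans (h2.trans (h3.trans h4.le))).trans
      (mul_le_mul_right ((measure_mono h5).trans hdiff) _)
  rw [mul_comm] at h6
  exact absurd (h6.trans_lt hε) (lt_irrefl _)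

end Pool.Agent.Helper37.Fd
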