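import Pool.Agent.Helper27.FM.Defs2

/-!
# Definitions: Galois conjugates, base change, independence
-/

set_option autoImplicit false
open Filter Topology

namespace Pool.Agent.Helper37.Fd

section

variable {p : ℕ} [Fact p.Prime] {E : Type*} [Field E] [Algebra ℚ_[p] E] {G : Type*} [Group G]

/-- the conjugate of a representation by an automorphism of `E` over `ℚ_p` -/
noncomputable def conjugate (τ : E ≃ₐ[ℚ_[p]] E) (ρ : G →* GL (Fin 2) E) : G →* GL (Fin 2) E :=
  (Matrix.GeneralLinearGroup.map (τ : E →+* E)).comp ρ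

variable (E) in
/-- the base change of a representation over `ℚ_p` to `E` -/
noncomputable def baseChange {n : ℕ} (T : G →* GL (Fin n) ℚ_[p]) : G →* GL (Fin n) E :=
  (Matrix.GeneralLinearGroup.map (algebraMap ℚ_[p] E)).comp T

end

/-- `V` is independent of the `ρ i` and `T j`: for every open subgroup `U` there is a neighbourhood
`W` of `1` such that every element of `V(G) ∩ W` of determinant `1` is `V g'` for some `g' ∈ U` on
which all `ρ i` and all `T j` are trivial. -/
def Independent {p : ℕ} [Fact p.Prime] {E : Type*} [NontriviallyNormedField E]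
    {G : Type*} [Group G] [TopologicalSpace G] (V : G →* GL (Fin 2) E)
    {ι : Type*} (ρ : ι → G →* GL (Fin 2) E)
    {J : Type*} {n : J → ℕ} (T : ∀ j, G →* GL (Fin (n j)) ℚ_[p]) : Prop :=
  ∀ U : Subgroup G, IsOpen (U : Set G) → ∃ W ∈ 𝓝 (1 : Matrix (Fin 2) (Fin 2) E),
    ∀ g, (V g : Matrix (Fin 2) (Fin 2) E) ∈ W → (V g : Matrix (Fin 2) (Fin 2) E).det = 1 →
      ∃ g' ∈ U, V g' = V g ∧ (∀ i, ρ i g' = 1) ∧ ∀ j, T j g' = 1

end Pool.Agent.Helper37.Fd
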