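import Pool.Agent.Helper37.Fd.Defs3

/-!
# Project FMD (MP_b583a4_nt), module Cont3: embedding, continuity

Definitions in `Pool/Agent/Helper37/Fd/Defs3.lean`.

PLAN. `exists_lam`: `Algebra.leftMulMatrix (Module.finBasis ℚ_[p] (M2 E))`, `Algebra.leftMulMatrix_injective`. Continuity: componentwise (`Continuous.prodMk`, `continuous_pi`, `continuous_matrix`; automorphisms of `E` over `ℚ_p` and `lam` are linear maps on finite dimensional Hausdorff topological vector spaces over `ℚ_p`:
`LinearMap.continuous_of_finiteDimensional`; `continuous_algebraMap`). For a homomorphism into units use `Units.continuous_iff` and the inverse, as in the proof of `hbcc` in `Pool/Agent/Results/MP_6cbef8_nt/TorsionDichotomy.lean` (`Units.continuous_val.comp`, `Units.continuous_coe_inv.comp`).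
-/

set_option autoImplicit false
open Filter Topology Matrix

namespace Pool.Agent.Helper37.Fd

open Pool.Agent.Helper27.FM Pool.Agent.Helper37.Kr

variable (p : ℕ) [hp : Fact p.Prime] {E : Type*} [NontriviallyNormedField E]
  [IsUltrametricDist E] [NormedAlgebra ℚ_[p] E] [FiniteDimensional ℚ_[p] E]
  {G : Type*} [Group G] {ι J : Type*} {n : J → ℕ}

theorem exists_lam (E : Type*) [NontriviallyNormedField E] [NormedAlgebra ℚ_[p] E]
    [FiniteDimensional ℚ_[p] E] :
    ∃ (N : ℕ) (lam : M2 E →ₐ[ℚ_[p]] Matrix (Fin N) (Fin N) ℚ_[p]), Function.Injective lam :=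
  ⟨_, Algebra.leftMulMatrix (Module.finBasis ℚ_[p] (M2 E)),
    Algebra.leftMulMatrix_injective (Module.finBasis ℚ_[p] (M2 E))⟩

omit [IsUltrametricDist E] in
private theorem continuous_equiv (τ : E ≃ₐ[ℚ_[p]] E) : Continuous τ :=
  LinearMap.continuous_of_finiteDimensional (τ.toLinearEquiv : E →ₗ[ℚ_[p]] E)

omit [IsUltrametricDist E] in
private theorem continuous_lam {N : ℕ} (lam : M2 E →ₐ[ℚ_[p]] Matrix (Fin N) (Fin N) ℚ_[p]) :
    Continuous lam :=
  LinearMap.continuous_of_finiteDimensional (lam.toLinearMap)

theorem continuous_phi3 : Continuous (phi3 p E ι n) := by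
  change Continuous fun x : Amb4 p E ι n =>
    (x.1, ((fun i : ι × (E ≃ₐ[ℚ_[p]] E) => (x.2.1 i.1).map i.2),
      (fun j : J => (x.2.2 j).map (algebraMap ℚ_[p] E))))
  refine continuous_fst.prodMk ((continuous_pi fun i => ?_).prodMk (continuous_pi fun j => ?_))
  · refine continuous_matrix fun a b => ?_
    have h1 : Continuous fun x : Amb4 p E ι n => x.2.1 i.1 :=
      (continuous_apply i.1).comp (continuous_fst.comp continuous_snd)
    exact (continuous_equiv p i.2).comp ((continuous_apply_apply a b).comp h1)
  · refine continuous_matrix fun a b => ?_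
    have h1 : Continuous fun x : Amb4 p E ι n => x.2.2 j :=
      (continuous_apply j).comp (continuous_snd.comp continuous_snd)
    exact (continuous_algebraMap ℚ_[p] E).comp ((continuous_apply_apply a b).comp h1)

theorem continuous_psi3 {N : ℕ}
    (lam : M2 E →ₐ[ℚ_[p]] Matrix (Fin N) (Fin N) ℚ_[p]) : Continuous (psi3 p lam ι n) := by
  refine continuous_fst.prodMk (continuous_pi fun k => ?_)
  rcases k with i | j
  · have h1 : Continuous fun x : Amb4 p E ι n => x.2.1 i :=
      (continuous_apply i).comp (continuous_fst.comp continuous_snd)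
    exact (continuous_lam p lam).comp h1
  · exact (continuous_apply j).comp (continuous_snd.comp continuous_snd)

variable [TopologicalSpace G]

theorem continuous_conj (τ : E ≃ₐ[ℚ_[p]] E) {ρ : G →* GL (Fin 2) E} (hρ : Continuous ρ) :
    Continuous (conj p τ ρ) := by
  have h1 : Continuous fun g => (ρ g : Matrix (Fin 2) (Fin 2) E) :=
    Units.continuous_val.comp hρ
  have h2 : Continuous fun g => (((ρ g)⁻¹ : GL (Fin 2) E) : Matrix (Fin 2) (Fin 2) E) :=
    Units.continuous_coe_inv.comp hρ
  refine Units.continuous_iff.mpr ⟨?_, ?_⟩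
  · refine continuous_matrix fun a b => ?_
    exact (continuous_equiv p τ).comp ((continuous_apply_apply a b).comp h1)
  · refine continuous_matrix fun a b => ?_
    exact (continuous_equiv p τ).comp ((continuous_apply_apply a b).comp h2)

theorem continuous_bc {m : ℕ} {T : G →* GL (Fin m) ℚ_[p]} (hT : Continuous T) :
    Continuous (bc E T) := by
  have h1 : Continuous fun g => (T g : Matrix (Fin m) (Fin m) ℚ_[p]) :=
    Units.continuous_val.comp hT
  have h2 : Continuous fun g =>
      (((T g)⁻¹ : GL (Fin m) ℚ_[p]) : Matrix (Fin m) (Fin m) ℚ_[p]) :=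
    Units.continuous_coe_inv.comp hT
  refine Units.continuous_iff.mpr ⟨?_, ?_⟩
  · refine continuous_matrix fun a b => ?_
    exact (continuous_algebraMap ℚ_[p] E).comp ((continuous_apply_apply a b).comp h1)
  · refine continuous_matrix fun a b => ?_
    exact (continuous_algebraMap ℚ_[p] E).comp ((continuous_apply_apply a b).comp h2)

theorem continuous_fam {N : ℕ} (lam : M2 E →ₐ[ℚ_[p]] Matrix (Fin N) (Fin N) ℚ_[p])
    {ρ : ι → G →* GL (Fin 2) E} {T : ∀ j, G →* GL (Fin (n j)) ℚ_[p]}
    (hρ : ∀ i, Continuous (ρ i)) (hT : ∀ j, Continuous (T j)) (k : ι ⊕ J) :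
    Continuous (fam p lam ρ T k) := by
  rcases k with i | j
  · have h1 : Continuous fun g => (ρ i g : M2 E) := Units.continuous_val.comp (hρ i)
    have h2 : Continuous fun g => (((ρ i g)⁻¹ : GL (Fin 2) E) : M2 E) :=
      Units.continuous_coe_inv.comp (hρ i)
    exact Units.continuous_iff.mpr ⟨(continuous_lam p lam).comp h1, (continuous_lam p lam).comp h2⟩
  · exact hT j

end Pool.Agent.Helper37.Fd
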