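import Mathlib.FieldTheory.Galois.Basic
import Mathlib.LinearAlgebra.LinearIndependent.Lemmas
import Mathlib.LinearAlgebra.Matrix.ToLinearEquiv
import Mathlib.RingTheory.Trace.Basic

/-!
# Project FMD (MP_b583a4_nt), module Ded: independence of automorphisms (Mathlib only)

PLAN. Apply `τ⁻¹` to the hypothesis: `∑ k, σ (b k) * y k = 0` for all `σ : E ≃ₐ[K] E`. The rows `k ↦ σ (b k)` are linearly independent over `E`: if `∑ σ, c σ * σ (b k) = 0` for all `k` then `∑ σ, c σ • σ = 0` as a `K`-linear map `E → E`
(`Module.Basis.ext`), so `c = 0` (Dedekind: `linearIndependent_toLinearMap K E E` for `E →ₐ[K] E`, `linearIndependent_monoidHom`; automorphisms inject into them). The number of automorphisms is `finrank K E` (`IsGalois.card_aut_eq_finrank`), so the matrix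
`(σ (b k))` (reindexed by an equivalence `(E ≃ₐ[K] E) ≃ Fin (finrank K E)`, `Fintype.equivOfCardEq`) is square with linearly independent rows, hence invertible (`Matrix.linearIndependent_rows_iff_isUnit`), so `y = 0` (`Matrix.mulVec`).
-/

set_option autoImplicit false

namespace Pool.Agent.Helper37.Fd

theorem dedekind {K E : Type*} [Field K] [Field E] [Algebra K E] [FiniteDimensional K E]
    [IsGalois K E] (b : Module.Basis (Fin (Module.finrank K E)) K E)
    (y : Fin (Module.finrank K E) → E) (h : ∀ τ : E ≃ₐ[K] E, ∑ k, b k * τ (y k) = 0) : y = 0 := by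
  classical
  have h1 : ∀ σ : E ≃ₐ[K] E, ∑ k, σ (b k) * y k = 0 := by
    intro σ
    have h2 := congrArg σ (h σ.symm)
    rw [map_sum, map_zero] at h2
    rw [← h2]
    exact Finset.sum_congr rfl fun k _ => by rw [map_mul, AlgEquiv.apply_symm_apply]
  let e : (E ≃ₐ[K] E) ≃ Fin (Module.finrank K E) :=
    Finite.equivFinOfCardEq (IsGalois.card_aut_eq_finrank K E)
  let A : Matrix (Fin (Module.finrank K E)) (Fin (Module.finrank K E)) E :=
    Matrix.of fun i k => (e.symm i) (b k)
  have hrow : LinearIndependent E A.row := by
    rw [Fintype.linearIndependent_iff]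
    intro g hg
    have h3 : ∀ k, ∑ i, g i * (e.symm i) (b k) = 0 := by
      intro k
      have h4 := congrFun hg k
      rw [Finset.sum_apply] at h4
      exact h4
    have h5 : ∀ x : E, ∑ i, g i * (e.symm i) x = 0 := by
      intro x
      have h6 : ∀ i, g i * (e.symm i) x = ∑ k, (b.repr x k) • (g i * (e.symm i) (b k)) := by
        intro i
        conv_lhs => rw [← b.sum_repr x]
        rw [map_sum, Finset.mul_sum]
        refine Finset.sum_congr rfl fun k _ => ?_
        rw [map_smul, mul_smul_comm]
      rw [Finset.sum_congr rfl fun i _ => h6 i, Finset.sum_comm]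
      refine Finset.sum_eq_zero fun k _ => ?_
      rw [← Finset.smul_sum, h3 k, smul_zero]
    have hli := linearIndependent_monoidHom E E
    have hinj : Function.Injective (fun i : Fin (Module.finrank K E) =>
        (((e.symm i : E ≃ₐ[K] E) : E →+* E) : E →* E)) := by
      intro i j hij
      apply e.symm.injective
      ext x
      exact DFunLike.congr_fun hij x
    have hli2 := hli.comp _ hinj
    rw [Fintype.linearIndependent_iff] at hli2
    apply hli2 g
    funext x
    rw [Finset.sum_apply]
    exact h5 x
  have hunit := Matrix.linearIndependent_rows_iff_isUnit.1 hrow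
  have hmul : A.mulVec y = 0 := by
    funext i
    exact h1 (e.symm i)
  have h7 : Function.Injective A.mulVec := Matrix.mulVec_injective_iff_isUnit.2 hunit
  apply h7
  rw [hmul, Matrix.mulVec_zero]

end Pool.Agent.Helper37.Fd
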