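import Pool.Agent.Helper27.FM.Abs

/-!
# Project FMD (MP_b583a4_nt), module Span: descent of the span of the logarithms to `ℚ_p`, functoriality

`Φ : A → B` is a continuous homomorphism of `ℚ_p`-algebras, `B` is an `E`-algebra, `R : G → A`.
-/

set_option autoImplicit false
open Filter Topology

namespace Pool.Agent.Helper37.Fd

open Pool.Agent.Helper27.FM

variable (p : ℕ) [hp : Fact p.Prime]

private lemma sd_one {E : Type*} [NontriviallyNormedField E] [NormedAlgebra ℚ_[p] E]
    [FiniteDimensional ℚ_[p] E] {X M : Type*} [AddCommGroup X] [Module ℚ_[p] X] [AddCommGroup M]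
    [Module ℚ_[p] M] [Module E M] [IsScalarTower ℚ_[p] E M] (F : X →ₗ[ℚ_[p]] M) (x : X) :
    ∑ k, Module.finBasis ℚ_[p] E k • F ((Module.finBasis ℚ_[p] E).repr 1 k • x) = F x := by
  have h : ∀ k, Module.finBasis ℚ_[p] E k • F ((Module.finBasis ℚ_[p] E).repr 1 k • x) =
      ((Module.finBasis ℚ_[p] E).repr 1 k • Module.finBasis ℚ_[p] E k) • F x := by
    intro k
    rw [map_smul, smul_assoc, smul_algebra_smul_comm]
  rw [Finset.sum_congr rfl fun k _ => h k, ← Finset.sum_smul, Module.Basis.sum_repr, one_smul]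

private lemma sd_smul {E : Type*} [NontriviallyNormedField E] [NormedAlgebra ℚ_[p] E]
    [FiniteDimensional ℚ_[p] E] {X M : Type*} [AddCommGroup X] [Module ℚ_[p] X] [AddCommGroup M]
    [Module ℚ_[p] M] [Module E M] [IsScalarTower ℚ_[p] E M] (F : X →ₗ[ℚ_[p]] M) (c : E)
    (w : Fin (Module.finrank ℚ_[p] E) → X) :
    ∑ l, Module.finBasis ℚ_[p] E l • F (∑ k, (Module.finBasis ℚ_[p] E).repr
      (c * Module.finBasis ℚ_[p] E k) l • w k) =
      c • ∑ k, Module.finBasis ℚ_[p] E k • F (w k) := by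
  have h : ∀ l, Module.finBasis ℚ_[p] E l • F (∑ k, (Module.finBasis ℚ_[p] E).repr
      (c * Module.finBasis ℚ_[p] E k) l • w k) =
      ∑ k, ((Module.finBasis ℚ_[p] E).repr (c * Module.finBasis ℚ_[p] E k) l •
        Module.finBasis ℚ_[p] E l) • F (w k) := by
    intro l
    rw [map_sum, Finset.smul_sum]
    refine Finset.sum_congr rfl fun k _ => ?_
    rw [map_smul, smul_assoc, smul_algebra_smul_comm]
  rw [Finset.sum_congr rfl fun l _ => h l, Finset.sum_comm, Finset.smul_sum]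
  refine Finset.sum_congr rfl fun k _ => ?_
  rw [← Finset.sum_smul, Module.Basis.sum_repr, mul_smul]

theorem span_desc {E : Type*} [NontriviallyNormedField E] [NormedAlgebra ℚ_[p] E]
    [FiniteDimensional ℚ_[p] E] {A : Type*} [Ring A] [Algebra ℚ_[p] A] [TopologicalSpace A]
    {B : Type*} [Ring B] [Algebra E B] [Algebra ℚ_[p] B] [IsScalarTower ℚ_[p] E B]
    [TopologicalSpace B] [T2Space B] (Φ : A →ₐ[ℚ_[p]] B) (hΦ : Continuous Φ)
    {G : Type*} [Group G] {R : G →* A} {U : Subgroup G}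
    (hlog : ∀ x ∈ U, ∃ X, ALog ℚ_[p] p R x X) :
    ∀ z ∈ ASp E p ((Φ : A →* B).comp R) U, ∃ w : Fin (Module.finrank ℚ_[p] E) → A,
      (∀ k, w k ∈ ASp ℚ_[p] p R U) ∧
        z = ∑ k, Module.finBasis ℚ_[p] E k • Φ (w k) := by
  intro z hz
  unfold ASp at hz
  induction hz using Submodule.span_induction with
  | mem z hz =>
    obtain ⟨x, hx, hz⟩ := hz
    obtain ⟨X, hX⟩ := hlog x hx
    have h1 : Tendsto (fun m : ℕ => Φ (((p : ℚ_[p]) ^ m)⁻¹ • (R x ^ (p ^ m) - 1))) atTop
        (𝓝 (Φ X)) := (hΦ.tendsto X).comp hX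
    have h2 : z = Φ X := by
      refine tendsto_nhds_unique hz (h1.congr fun m => ?_)
      rw [map_smul, map_sub, map_pow, map_one, ← algebraMap_smul E, map_inv₀, map_pow,
        map_natCast]
      rfl
    have h3 : X ∈ ASp ℚ_[p] p R U := Submodule.subset_span ⟨x, hx, hX⟩
    refine ⟨fun k => (Module.finBasis ℚ_[p] E).repr 1 k • X,
      fun k => Submodule.smul_mem _ _ h3, ?_⟩
    rw [h2]
    exact (sd_one p Φ.toLinearMap X).symm
  | zero => exact ⟨fun _ => 0, fun _ => Submodule.zero_mem _, by simp⟩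
  | add z z' _ _ ih ih' =>
    obtain ⟨w, hw, h1⟩ := ih
    obtain ⟨w', hw', h1'⟩ := ih'
    refine ⟨fun k => w k + w' k, fun k => Submodule.add_mem _ (hw k) (hw' k), ?_⟩
    rw [h1, h1', ← Finset.sum_add_distrib]
    refine Finset.sum_congr rfl fun k _ => ?_
    rw [map_add, smul_add]
  | smul c z _ ih =>
    obtain ⟨w, hw, h1⟩ := ih
    refine ⟨fun l => ∑ k, (Module.finBasis ℚ_[p] E).repr
      (c * Module.finBasis ℚ_[p] E k) l • w k, ?_, ?_⟩
    · intro l
      exact Submodule.sum_mem _ fun k _ => Submodule.smul_mem _ _ (hw k)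
    · rw [h1]
      exact (sd_smul p Φ.toLinearMap c w).symm

theorem ASp_map {K : Type*} [NormedField K] {A : Type*} [Ring A] [Algebra K A]
    [TopologicalSpace A] {B : Type*} [Ring B] [Algebra K B] [TopologicalSpace B]
    (Φ : A →ₐ[K] B) (hΦ : Continuous Φ) {G : Type*} [Group G] {R : G →* A} {U : Subgroup G} :
    ∀ z ∈ ASp K p R U, Φ z ∈ ASp K p ((Φ : A →* B).comp R) U := by
  intro z hz
  unfold ASp at hz
  induction hz using Submodule.span_induction with
  | mem z hz =>
    obtain ⟨x, hx, hz⟩ := hz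
    refine Submodule.subset_span ⟨x, hx, ?_⟩
    have h1 : Tendsto (fun m : ℕ => Φ (((p : K) ^ m)⁻¹ • (R x ^ (p ^ m) - 1))) atTop
        (𝓝 (Φ z)) := (hΦ.tendsto z).comp hz
    refine h1.congr fun m => ?_
    rw [map_smul, map_sub, map_pow, map_one]
    rfl
  | zero =>
    rw [map_zero]
    exact Submodule.zero_mem _
  | add a b _ _ ha hb =>
    rw [map_add]
    exact Submodule.add_mem _ ha hb
  | smul c a _ ha =>
    rw [map_smul]
    exact Submodule.smul_mem _ _ ha

end Pool.Agent.Helper37.Fd
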