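import Pool.Agent.Helper27.FM.Main3
import Pool.Agent.Helper37.Kr.KernB
import Pool.Agent.Helper37.Fd.Span

/-!
# Project FMD (MP_b583a4_nt), module Defs3: the algebra `M_2(E) × ∏ M_2(E) × ∏ M_(n j)(ℚ_p)` and its two maps

`RQ3 V ρ T g = (V g, (ρ i g)_i, (T j g)_j)` over `ℚ_p`. `phi3`: to `Amb3 E (ι × Gal) n` (apply all automorphisms of `E` to the `ρ i`, base change of the `T j`). `psi3 lam`: to the algebra of `RQ` (Kr/KernA.lean), replacing the `ρ i` by the `ℚ_p`-representations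
`resRep lam (ρ i)`, `lam : M_2(E) → M_N(ℚ_p)` an embedding.

PLAN. All statements are formal. `continuous_phi3`, `continuous_psi3`: componentwise (`Continuous.prodMk`, `continuous_pi`, `continuous_matrix`; automorphisms of `E` over `ℚ_p` are `ℚ_p`-linear maps of a finite dimensional space, so continuous: `LinearMap.continuous_of_finiteDimensional`;
`continuous_algebraMap`; `lam` is linear on a finite dimensional space). `exists_lam`: `Algebra.leftMulMatrix (Module.finBasis ℚ_[p] (M2 E))`, `Algebra.leftMulMatrix_injective`. `hlog3`: `exists_log_mat` for `V x`, `ρ i x`, `exists_log_matn` for `T j x` and products of limits (`Filter.Tendsto.prodMk_nhds`, `tendsto_pi_nhds`;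
the scalars `((p : E)^m)⁻¹` and `((p : ℚ_[p])^m)⁻¹` act in the same way: `smul_p_eq`). Compare `alog_exists` in Helper27/FM/Main3.lean and the proof of `kernB`.
-/

set_option autoImplicit false
open Filter Topology Matrix

namespace Pool.Agent.Helper37.Fd

open Pool.Agent.Helper27.FM Pool.Agent.Helper37.Kr

variable (p : ℕ) [hp : Fact p.Prime] {E : Type*} [NontriviallyNormedField E]
  [IsUltrametricDist E] [NormedAlgebra ℚ_[p] E] {G : Type*} [Group G] {ι J : Type*} {n : J → ℕ}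

/-- the algebra of the tuples -/
abbrev Amb4 (p : ℕ) [Fact p.Prime] (E : Type*) (ι : Type*) {J : Type*} (n : J → ℕ) : Type _ :=
  M2 E × ((ι → M2 E) × (∀ j : J, Matrix (Fin (n j)) (Fin (n j)) ℚ_[p]))

/-- the tuple `(V, ρ, T)` as a homomorphism into a `ℚ_p`-algebra -/
noncomputable def RQ3 (V : G →* GL (Fin 2) E) (ρ : ι → G →* GL (Fin 2) E)
    (T : ∀ j, G →* GL (Fin (n j)) ℚ_[p]) : G →* Amb4 p E ι n where
  toFun g := ((V g : M2 E), ((fun i => (ρ i g : M2 E)),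
    (fun j => (T j g : Matrix (Fin (n j)) (Fin (n j)) ℚ_[p]))))
  map_one' := by
    simp only [map_one, Units.val_one]
    rfl
  map_mul' a b := by
    simp only [map_mul, Units.val_mul]
    rfl

/-- the Galois conjugate of a representation -/
noncomputable def conj (τ : E ≃ₐ[ℚ_[p]] E) (ρ : G →* GL (Fin 2) E) : G →* GL (Fin 2) E :=
  (Matrix.GeneralLinearGroup.map (τ : E →+* E)).comp ρ

/-- conjugates and base change -/
noncomputable def phi3 (E : Type*) [NontriviallyNormedField E] [NormedAlgebra ℚ_[p] E]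
    (ι : Type*) {J : Type*} (n : J → ℕ) :
    Amb4 p E ι n →ₐ[ℚ_[p]] Amb3 E (ι × (E ≃ₐ[ℚ_[p]] E)) n :=
  AlgHom.prod (AlgHom.fst ℚ_[p] _ _)
    (AlgHom.prod
      (AlgHom.pi fun i : ι × (E ≃ₐ[ℚ_[p]] E) =>
        ((i.2 : E →ₐ[ℚ_[p]] E).mapMatrix).comp
          ((Pi.evalAlgHom ℚ_[p] _ i.1).comp ((AlgHom.fst ℚ_[p] _ _).comp (AlgHom.snd ℚ_[p] _ _))))
      (AlgHom.pi fun j : J => ((Algebra.ofId ℚ_[p] E).mapMatrix).comp
        ((Pi.evalAlgHom ℚ_[p] _ j).comp ((AlgHom.snd ℚ_[p] _ _).comp (AlgHom.snd ℚ_[p] _ _)))))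

/-- restriction of scalars of a representation along an embedding -/
noncomputable def resRep {N : ℕ} (lam : M2 E →ₐ[ℚ_[p]] Matrix (Fin N) (Fin N) ℚ_[p])
    (ρ : G →* GL (Fin 2) E) : G →* GL (Fin N) ℚ_[p] :=
  (Units.map (lam : M2 E →* Matrix (Fin N) (Fin N) ℚ_[p])).comp ρ

/-- the family of all `resRep lam (ρ i)` and all `T j` -/
noncomputable def fam {N : ℕ} (lam : M2 E →ₐ[ℚ_[p]] Matrix (Fin N) (Fin N) ℚ_[p])
    (ρ : ι → G →* GL (Fin 2) E) (T : ∀ j, G →* GL (Fin (n j)) ℚ_[p]) :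
    ∀ k : ι ⊕ J, G →* GL (Fin (Sum.elim (fun _ => N) n k)) ℚ_[p]
  | .inl i => resRep p lam (ρ i)
  | .inr j => T j

/-- restriction of scalars on the algebras -/
noncomputable def psi3 {N : ℕ} (lam : M2 E →ₐ[ℚ_[p]] Matrix (Fin N) (Fin N) ℚ_[p]) (ι : Type*)
    {J : Type*} (n : J → ℕ) :
    Amb4 p E ι n →ₐ[ℚ_[p]] M2 E × (∀ k : ι ⊕ J,
      Matrix (Fin (Sum.elim (fun _ => N) n k)) (Fin (Sum.elim (fun _ => N) n k)) ℚ_[p]) :=
  AlgHom.prod (AlgHom.fst ℚ_[p] _ _)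
    (AlgHom.pi fun k : ι ⊕ J => match k with
      | .inl i => lam.comp ((Pi.evalAlgHom ℚ_[p] _ i).comp
          ((AlgHom.fst ℚ_[p] _ _).comp (AlgHom.snd ℚ_[p] _ _)))
      | .inr j => (Pi.evalAlgHom ℚ_[p] _ j).comp
          ((AlgHom.snd ℚ_[p] _ _).comp (AlgHom.snd ℚ_[p] _ _)))

theorem phi3_comp (V : G →* GL (Fin 2) E) (ρ : ι → G →* GL (Fin 2) E)
    (T : ∀ j, G →* GL (Fin (n j)) ℚ_[p]) :
    ((phi3 p E ι n : Amb4 p E ι n →* Amb3 E (ι × (E ≃ₐ[ℚ_[p]] E)) n)).comp (RQ3 p V ρ T) =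
      RR V (fun i : ι × (E ≃ₐ[ℚ_[p]] E) => conj p i.2 (ρ i.1)) (fun j => bc E (T j)) := by
  rfl

theorem psi3_comp {N : ℕ} (lam : M2 E →ₐ[ℚ_[p]] Matrix (Fin N) (Fin N) ℚ_[p])
    (V : G →* GL (Fin 2) E) (ρ : ι → G →* GL (Fin 2) E)
    (T : ∀ j, G →* GL (Fin (n j)) ℚ_[p]) :
    ((psi3 p lam ι n : Amb4 p E ι n →* M2 E × (∀ k : ι ⊕ J,
      Matrix (Fin (Sum.elim (fun _ => N) n k)) (Fin (Sum.elim (fun _ => N) n k)) ℚ_[p]))).comp
        (RQ3 p V ρ T) = RQ p V (fam p lam ρ T) := by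
  refine MonoidHom.ext fun g => Prod.ext rfl (funext fun k => ?_)
  cases k <;> rfl

end Pool.Agent.Helper37.Fd
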