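import Pool.Agent.Helper37.Fd.Defs3

/-!
# Project FMD (MP_b583a4_nt), module Log3: existence of the logarithm of `RQ3`

Definitions in `Pool/Agent/Helper37/Fd/Defs3.lean`.

PLAN. `exists_log_mat` for `V x`, `ρ i x`, `exists_log_matn` for `T j x` (Helper27/FM/Mat.lean, LogN.lean; `E` is complete: `FiniteDimensional.complete ℚ_[p] E`) and products of limits (`Filter.Tendsto.prodMk_nhds`, `tendsto_pi_nhds`); the scalars `((p : E)^m)⁻¹` and `((p : ℚ_[p])^m)⁻¹` act in the same way: `smul_p_eq`.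
Compare `alog_exists` in Helper27/FM/Main3.lean and the proof of `kernB` in Helper37/Kr/KernB.lean.
-/

set_option autoImplicit false
open Filter Topology Matrix

namespace Pool.Agent.Helper37.Fd

open Pool.Agent.Helper27.FM Pool.Agent.Helper37.Kr

variable (p : ℕ) [hp : Fact p.Prime] {E : Type*} [NontriviallyNormedField E]
  [IsUltrametricDist E] [NormedAlgebra ℚ_[p] E] [FiniteDimensional ℚ_[p] E]
  {G : Type*} [Group G] {ι J : Type*} {n : J → ℕ}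

theorem hlog3 {V : G →* GL (Fin 2) E} {ρ : ι → G →* GL (Fin 2) E}
    {T : ∀ j, G →* GL (Fin (n j)) ℚ_[p]} {x : G}
    (h1 : ∀ i j, ‖((V x : M2 E) - 1) i j‖ ≤ (p : ℝ)⁻¹ ^ 2)
    (h2 : ∀ k i j, ‖((ρ k x : M2 E) - 1) i j‖ ≤ (p : ℝ)⁻¹ ^ 2)
    (h3 : ∀ k i j, ‖((T k x : Matrix (Fin (n k)) (Fin (n k)) ℚ_[p]) - 1) i j‖ ≤ (p : ℝ)⁻¹ ^ 2) :
    ∃ X, ALog ℚ_[p] p (RQ3 p V ρ T) x X := by
  have hE : CompleteSpace E := FiniteDimensional.complete ℚ_[p] E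
  obtain ⟨z1, hz1⟩ := exists_log_mat p (V x : M2 E) h1
  choose z2 hz2 using fun k => exists_log_mat p (ρ k x : M2 E) (h2 k)
  choose z3 hz3 using fun k =>
    exists_log_matn p (T k x : Matrix (Fin (n k)) (Fin (n k)) ℚ_[p]) (h3 k)
  refine ⟨(z1, (z2, z3)), ?_⟩
  unfold ALog
  have h6 : Tendsto (fun m : ℕ => ((p : ℚ_[p]) ^ m)⁻¹ • ((V x : M2 E) ^ (p ^ m) - 1)) atTop
      (𝓝 z1) := hz1.congr fun m => smul_p_eq p m _
  have h4 : Tendsto (fun m : ℕ => ((fun k => ((p : ℚ_[p]) ^ m)⁻¹ • ((ρ k x : M2 E) ^ (p ^ m) - 1)) :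
      ι → M2 E)) atTop (𝓝 z2) :=
    tendsto_pi_nhds.mpr fun k => (hz2 k).congr fun m => smul_p_eq p m _
  have h5 : Tendsto (fun m : ℕ => ((fun k => ((p : ℚ_[p]) ^ m)⁻¹ •
      ((T k x : Matrix (Fin (n k)) (Fin (n k)) ℚ_[p]) ^ (p ^ m) - 1)) :
      ∀ k, Matrix (Fin (n k)) (Fin (n k)) ℚ_[p])) atTop (𝓝 z3) := tendsto_pi_nhds.mpr hz3
  exact (h6.prodMk_nhds (h4.prodMk_nhds h5))

end Pool.Agent.Helper37.Fd
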