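import Pool.Agent.Helper37.Fd.Ded
import Pool.Agent.Helper37.Fd.Cont3
import Pool.Agent.Helper37.Fd.Log3

/-!
# Project FMD (MP_b583a4_nt), module NonScal3: a nonscalar element of the `ℚ_p`-span

Definitions in `Pool/Agent/Helper37/Fd/Defs3.lean`.

PLAN. `span_desc` (Span.lean) with `Φ = phi3 p E ι n` (`continuous_phi3`), `hlog` from `hlog3`, `phi3_comp`: the element of `hX` is `∑ k, e k • Φ (w k)`, `e = Module.finBasis ℚ_[p] E`. Components (`Prod.ext_iff`, `funext`, entries of matrices): for all `i`, `τ` and entries `a b`: `∑ k, e k * τ ((w k).2.1 i a b) = 0`, so all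
`(w k).2.1 i a b = 0` (`dedekind`); for all `j`: `∑ k, e k * algebraMap ((w k).2.2 j a b) = 0`, so `(w k).2.2 j a b = 0` (linear independence of the basis, see the end of `hI` in `Pool/Agent/Results/MP_6cbef8_nt/TorsionDichotomy.lean`); and `∑ k, e k • (w k).1 = Matrix.single 0 1 1`. So `(w k).2 = 0` for all `k`, and if all `(w k).1`
were scalar then `Matrix.single 0 1 1` would be scalar, false at the entry `0 1`.
-/

set_option autoImplicit false
open Filter Topology Matrix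

namespace Pool.Agent.Helper37.Fd

open Pool.Agent.Helper27.FM Pool.Agent.Helper37.Kr

theorem exists_nonscalar3 (p : ℕ) [hp : Fact p.Prime] {E : Type*} [NontriviallyNormedField E]
    [IsUltrametricDist E] [NormedAlgebra ℚ_[p] E] [FiniteDimensional ℚ_[p] E] [IsGalois ℚ_[p] E]
    {G : Type*} [Group G] {ι J : Type*} {n : J → ℕ} {V : G →* GL (Fin 2) E}
    {ρ : ι → G →* GL (Fin 2) E} {T : ∀ j, G →* GL (Fin (n j)) ℚ_[p]} {U : Subgroup G}
    (h1 : ∀ x ∈ U, ∀ i j, ‖((V x : M2 E) - 1) i j‖ ≤ (p : ℝ)⁻¹ ^ 2)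
    (h2 : ∀ x ∈ U, ∀ k i j, ‖((ρ k x : M2 E) - 1) i j‖ ≤ (p : ℝ)⁻¹ ^ 2)
    (h3 : ∀ x ∈ U, ∀ k i j,
      ‖((T k x : Matrix (Fin (n k)) (Fin (n k)) ℚ_[p]) - 1) i j‖ ≤ (p : ℝ)⁻¹ ^ 2)
    (hX : ((Matrix.single 0 1 1, (0, 0)) : Amb3 E (ι × (E ≃ₐ[ℚ_[p]] E)) n) ∈
      ASp E p (RR V (fun i : ι × (E ≃ₐ[ℚ_[p]] E) => conj p i.2 (ρ i.1)) (fun j => bc E (T j))) U) :
    ∃ w ∈ ASp ℚ_[p] p (RQ3 p V ρ T) U, w.2 = 0 ∧ ∀ c : E, w.1 ≠ c • (1 : M2 E) := by
  have hX' : ((Matrix.single 0 1 1, (0, 0)) : Amb3 E (ι × (E ≃ₐ[ℚ_[p]] E)) n) ∈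
      ASp E p ((phi3 p E ι n : Amb4 p E ι n →* Amb3 E (ι × (E ≃ₐ[ℚ_[p]] E)) n).comp
        (RQ3 p V ρ T)) U := by
    rw [phi3_comp]
    exact hX
  obtain ⟨w, hw, hz⟩ := span_desc p (phi3 p E ι n) (continuous_phi3 p)
    (fun x hx => hlog3 p (h1 x hx) (h2 x hx) (h3 x hx)) _ hX'
  have hz1 : (Matrix.single 0 1 1 : M2 E) =
      ∑ k, Module.finBasis ℚ_[p] E k • (w k).1 := by
    have h := congrArg Prod.fst hz
    rw [Prod.fst_sum] at h
    exact h
  have hz2 : ∀ (i : ι) (τ : E ≃ₐ[ℚ_[p]] E) (a b : Fin 2),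
      ∑ k, Module.finBasis ℚ_[p] E k * τ ((w k).2.1 i a b) = 0 := by
    intro i τ a b
    have h := congrArg (fun z : Amb3 E (ι × (E ≃ₐ[ℚ_[p]] E)) n => z.2.1 (i, τ) a b) hz
    simp only [Prod.snd_sum, Prod.fst_sum, Finset.sum_apply, Matrix.sum_apply] at h
    exact h.symm
  have hz3 : ∀ (j : J) (a b : Fin (n j)),
      ∑ k, Module.finBasis ℚ_[p] E k * algebraMap ℚ_[p] E ((w k).2.2 j a b) = 0 := by
    intro j a b
    have h := congrArg (fun z : Amb3 E (ι × (E ≃ₐ[ℚ_[p]] E)) n => z.2.2 j a b) hz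
    simp only [Prod.snd_sum, Finset.sum_apply, Matrix.sum_apply] at h
    exact h.symm
  have hw2 : ∀ k, (w k).2 = 0 := by
    intro k
    refine Prod.ext ?_ ?_
    · funext i
      ext a b
      have h := dedekind (Module.finBasis ℚ_[p] E) (fun k => (w k).2.1 i a b)
        (fun τ => hz2 i τ a b)
      exact congrFun h k
    · funext j
      ext a b
      have h2 : ∑ k, ((w k).2.2 j a b) • Module.finBasis ℚ_[p] E k = 0 := by
        rw [← hz3 j a b]
        refine Finset.sum_congr rfl fun k _ => ?_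
        rw [Algebra.smul_def, mul_comm]
      exact (Fintype.linearIndependent_iff.mp (Module.finBasis ℚ_[p] E).linearIndependent _
        h2) k
  by_contra hc
  push Not at hc
  choose c hc using fun k => hc (w k) (hw k) (hw2 k)
  have h3 := congrFun (congrFun hz1 0) 1
  simp only [hc] at h3
  simp [Matrix.sum_apply] at h3

end Pool.Agent.Helper37.Fd
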