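import Pool.Agent.Helper37.Fd.Cont3

/-!
# Project FMD (MP_b583a4_nt), module Small4: a small open normal subgroup

Definitions in `Pool/Agent/Helper37/Fd/Defs3.lean`.

PLAN. Apply `exists_small3` (Helper27/FM/Main3.lean) to `V`, the family `k : ι × Gal ↦ conj p k.2 (ρ k.1)` and the family over `J ⊕ (ι ⊕ J)` of all `bc E (T j)` and `bc E (fam p lam ρ T k)` (continuity: `Cont3.lean`), intersect with `U₀` and take a normal open subgroup
(`ProfiniteGrp.exist_openNormalSubgroup_sub_open_nhds_of_one`, as in `Pool/Agent/Results/MP_6cbef8_nt/TorsionDichotomy.lean`). `ρ k` is `conj p 1 (ρ k)` (`AlgEquiv.refl`); the entries of `bc E S x - 1` are the images of those of `S x - 1` under `algebraMap ℚ_[p] E`, an isometry (`norm_algebraMap'`; see `h3` in the same file).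
To keep the dependent types simple one can also apply `exists_small3` twice (with `J := J`, `n` and with `J := ι ⊕ J`, `n := Sum.elim (fun _ => N) n`) and intersect.
-/

set_option autoImplicit false
open Filter Topology Matrix

namespace Pool.Agent.Helper37.Fd

open Pool.Agent.Helper27.FM Pool.Agent.Helper37.Kr

private theorem small4_bc (p : ℕ) [hp : Fact p.Prime] {E : Type*} [NontriviallyNormedField E]
    [NormedAlgebra ℚ_[p] E] {G : Type*} [Group G] {m : ℕ} (S : G →* GL (Fin m) ℚ_[p]) (x : G)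
    (i j : Fin m) (h : ‖((bc E S x : Matrix (Fin m) (Fin m) E) - 1) i j‖ ≤ (p : ℝ)⁻¹ ^ 2) :
    ‖((S x : Matrix (Fin m) (Fin m) ℚ_[p]) - 1) i j‖ ≤ (p : ℝ)⁻¹ ^ 2 := by
  have h3 : ((bc E S x : Matrix (Fin m) (Fin m) E) - 1) i j =
      algebraMap ℚ_[p] E (((S x : Matrix (Fin m) (Fin m) ℚ_[p]) - 1) i j) := by
    rw [Matrix.sub_apply, Matrix.sub_apply, map_sub, Matrix.one_apply, Matrix.one_apply,
      apply_ite (algebraMap ℚ_[p] E), map_one, map_zero]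
    rfl
  rw [h3, norm_algebraMap'] at h
  exact h

theorem exists_small4 (p : ℕ) [hp : Fact p.Prime] {E : Type*} [NontriviallyNormedField E]
    [IsUltrametricDist E] [NormedAlgebra ℚ_[p] E] [FiniteDimensional ℚ_[p] E] {G : Type*} [Group G]
    [TopologicalSpace G] [IsTopologicalGroup G] [CompactSpace G] [TotallyDisconnectedSpace G]
    {ι J : Type*} [Finite ι] [Finite J] {n : J → ℕ} {N : ℕ}
    (lam : M2 E →ₐ[ℚ_[p]] Matrix (Fin N) (Fin N) ℚ_[p]) {V : G →* GL (Fin 2) E}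
    {ρ : ι → G →* GL (Fin 2) E} {T : ∀ j, G →* GL (Fin (n j)) ℚ_[p]} (hV : Continuous V)
    (hρ : ∀ i, Continuous (ρ i)) (hT : ∀ j, Continuous (T j)) {U₀ : Subgroup G}
    (hU₀ : IsOpen (U₀ : Set G)) :
    ∃ H : Subgroup G, H.Normal ∧ IsOpen (H : Set G) ∧ H ≤ U₀ ∧ ∀ x ∈ H,
      (∀ i j, ‖((V x : M2 E) - 1) i j‖ ≤ (p : ℝ)⁻¹ ^ 2) ∧
      (∀ k i j, ‖((ρ k x : M2 E) - 1) i j‖ ≤ (p : ℝ)⁻¹ ^ 2) ∧
      (∀ (k : ι × (E ≃ₐ[ℚ_[p]] E)) (i j : Fin 2),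
        ‖((conj p k.2 (ρ k.1) x : M2 E) - 1) i j‖ ≤ (p : ℝ)⁻¹ ^ 2) ∧
      (∀ k i j, ‖((T k x : Matrix (Fin (n k)) (Fin (n k)) ℚ_[p]) - 1) i j‖ ≤ (p : ℝ)⁻¹ ^ 2) ∧
      (∀ k i j, ‖((bc E (T k) x : Matrix (Fin (n k)) (Fin (n k)) E) - 1) i j‖ ≤ (p : ℝ)⁻¹ ^ 2) ∧
      ∀ k i j, ‖((fam p lam ρ T k x : Matrix (Fin (Sum.elim (fun _ => N) n k))
        (Fin (Sum.elim (fun _ => N) n k)) ℚ_[p]) - 1) i j‖ ≤ (p : ℝ)⁻¹ ^ 2 := by
  have : CompleteSpace E := FiniteDimensional.complete ℚ_[p] E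
  obtain ⟨U₁, hU₁, hU₁o, hs₁⟩ := exists_small3 p
    (ρ := fun k : ι × (E ≃ₐ[ℚ_[p]] E) => conj p k.2 (ρ k.1)) (σ := fun j => bc E (T j)) hV
    (fun k => continuous_conj p k.2 (hρ k.1)) (fun j => continuous_bc p (hT j))
  obtain ⟨U₂, hU₂, hU₂o, hs₂⟩ := exists_small3 p (ρ := ρ)
    (σ := fun k : ι ⊕ J => bc E (fam p lam ρ T k)) hV hρ
    (fun k => continuous_bc p (continuous_fam p lam hρ hT k))
  obtain ⟨H, hH⟩ := ProfiniteGrp.exist_openNormalSubgroup_sub_open_nhds_of_one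
    ((hU₁o.inter hU₂o).inter hU₀) ⟨⟨U₁.one_mem, U₂.one_mem⟩, U₀.one_mem⟩
  refine ⟨H.toSubgroup, H.isNormal', H.isOpen', fun x hx => (hH hx).2, fun x hx => ?_⟩
  obtain ⟨a1, a2, a3⟩ := hs₁ x (hH hx).1.1
  obtain ⟨b1, b2, b3⟩ := hs₂ x (hH hx).1.2
  exact ⟨a1, b2, a2, fun k i j => small4_bc p (T k) x i j (a3 k i j), a3,
    fun k i j => small4_bc p (fam p lam ρ T k) x i j (b3 k i j)⟩

end Pool.Agent.Helper37.Fd
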