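import Pool.Agent.Helper27.FM.Twist
import Pool.Agent.Helper37.Fd.DefsD
import Pool.Agent.Helper37.Fd.Small4
import Pool.Agent.Helper37.Fd.NonScal3
import Pool.Agent.Helper37.Dc.Full
import Pool.Agent.Helper37.Dc.NonInd

/-!
# Proof of the dichotomy for `V` and finitely many modular representations

`V` is a strongly irreducible two-dimensional representation over a finite Galois extension `E` of
`ℚ_p`, the `ρ i` are finitely many arbitrary two-dimensional representations over `E`, the `T j`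
finitely many representations over `ℚ_p` of any dimensions in whose endomorphisms `ad⁰ V` does not
occur over `E`.  Either `V` is a twist of a Galois conjugate of some `ρ i`, or `V` is independent of
all of them: on every open subgroup the image under `V` of the common kernel of the `ρ i` and `T j`
contains a neighbourhood of `1` in `V(G) ∩ SL_2(E)`.  The first case holds as soon as this common
kernel acts by scalars on an open subgroup.
-/

set_option autoImplicit false
open Filter Topology Pool.Agent.Helper27.FM Pool.Agent.Helper37.Kr Pool.Agent.Helper37.Dc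
  Pool.Agent.Helper37.Fd

namespace Pool.Agent.Helper37.Fd

theorem dichotomy (p : ℕ) [hp : Fact p.Prime]
    -- the coefficient field, a finite Galois extension of `ℚ_p`
    {E : Type*} [NontriviallyNormedField E] [IsUltrametricDist E] [NormedAlgebra ℚ_[p] E]
    [FiniteDimensional ℚ_[p] E] [IsGalois ℚ_[p] E]
    -- a profinite group
    {G : Type*} [Group G] [TopologicalSpace G] [IsTopologicalGroup G] [CompactSpace G]
    [TotallyDisconnectedSpace G]
    -- a strongly irreducible representation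
    (V : G →* GL (Fin 2) E) (hV : Continuous V) (hirr : StronglyIrreducible V)
    -- finitely many two-dimensional representations
    {ι : Type*} [Finite ι] (ρ : ι → G →* GL (Fin 2) E) (hρ : ∀ i, Continuous (ρ i))
    -- finitely many representations over `ℚ_p`, with no `ad⁰ V` in their endomorphisms
    {J : Type*} [Finite J] (n : J → ℕ) (T : ∀ j, G →* GL (Fin (n j)) ℚ_[p])
    (hT : ∀ j, Continuous (T j)) (hocc : ∀ j, ¬ AdOccurs V (bc E (T j))) :
    ((∃ (i : ι) (τ : E ≃ₐ[ℚ_[p]] E), IsTwist V (conj p τ (ρ i))) ↔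
      ∃ U : Subgroup G, IsOpen (U : Set G) ∧ ∀ g ∈ U, (∀ i, ρ i g = 1) → (∀ j, T j g = 1) →
        ∃ c : E, (V g : Matrix (Fin 2) (Fin 2) E) = c • (1 : Matrix (Fin 2) (Fin 2) E)) ∧
    ((∃ (i : ι) (τ : E ≃ₐ[ℚ_[p]] E), IsTwist V (conj p τ (ρ i))) ↔ ¬ Independent V ρ T) := by
  have : CompleteSpace E := FiniteDimensional.complete ℚ_[p] E
  have : CharZero E := charZeroE p
  obtain ⟨N, lam, hlam⟩ := exists_lam p E
  -- the case of no twist
  have hind : (¬ ∃ (i : ι) (τ : E ≃ₐ[ℚ_[p]] E), IsTwist V (conj p τ (ρ i))) →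
      Independent V ρ T := by
    intro hno U₀ hU₀
    obtain ⟨H, hHn, hHo, hHU, hs⟩ := exists_small4 p lam hV hρ hT hU₀
    obtain ⟨w, hw, hw2, hw1⟩ : ∃ w ∈ ASp ℚ_[p] p (RQ3 p V ρ T) H, w.2 = 0 ∧
        ∀ c : E, w.1 ≠ c • (1 : M2 E) := by
      refine exists_nonscalar3 p (fun x hx => (hs x hx).1) (fun x hx => (hs x hx).2.1)
        (fun x hx => (hs x hx).2.2.2.1) ?_
      rcases sl_in_span p (ρ := fun i : ι × (E ≃ₐ[ℚ_[p]] E) => conj p i.2 (ρ i.1))
        (σ := fun j => bc E (T j)) hV ((strIrr_iff _).mp hirr) hocc hHn hHo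
        (fun x hx => ⟨(hs x hx).1, (hs x hx).2.2.1, (hs x hx).2.2.2.2.1⟩) with ⟨i, hh, hk⟩ | hfull
      · exact absurd ⟨i.1, i.2, isTwist_of hV (continuous_conj p i.2 (hρ i.1)) hk⟩ hno
      · exact hfull (Matrix.single 0 1 1) (by simp)
    have hI : ∃ z ∈ ASp ℚ_[p] p (RQ p V (fam p lam ρ T)) H, (∀ k, z.2 k = 0) ∧
        ∀ c : E, z.1 ≠ c • (1 : M2 E) := by
      have h1 := ASp_map p (psi3 p lam ι n) (continuous_psi3 p lam) w hw
      rw [psi3_comp] at h1
      refine ⟨_, h1, ?_, hw1⟩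
      intro k
      have hw' : w = (w.1, 0) := Prod.ext rfl hw2
      rw [hw']
      cases k with
      | inl i =>
        change lam 0 = 0
        exact map_zero lam
      | inr j => rfl
    obtain ⟨W, hW, hWf⟩ := full_of_nonscalar p hV
      (adSimple_of_strIrr hV ((strIrr_iff _).mp hirr)) (continuous_fam p lam hρ hT) hHn hHo
      (fun x hx => ⟨(hs x hx).1, (hs x hx).2.2.2.2.2⟩) hI
    refine ⟨W, hW, fun g hg hd => ?_⟩
    obtain ⟨g', hg', h1, h2⟩ := hWf g hg hd
    refine ⟨g', hHU hg', h1, fun i => ?_, fun j => h2 (.inr j)⟩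
    have h3 := congrArg Units.val (h2 (.inl i))
    apply Units.ext
    apply hlam
    rw [Units.val_one, map_one]
    exact h3
  -- a twist is scalar on the kernel
  have hsc : (∃ (i : ι) (τ : E ≃ₐ[ℚ_[p]] E), IsTwist V (conj p τ (ρ i))) → ∃ U : Subgroup G,
      IsOpen (U : Set G) ∧ ∀ g ∈ U, (∀ i, ρ i g = 1) → (∀ j, T j g = 1) →
      ∃ c : E, (V g : Matrix (Fin 2) (Fin 2) E) = c • (1 : Matrix (Fin 2) (Fin 2) E) := by
    rintro ⟨i, τ, χ, h, -, hχ⟩
    refine ⟨⊤, isOpen_univ, fun g _ h0 _ => ⟨χ g, ?_⟩⟩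
    have h1 : conj p τ (ρ i) g = 1 := by
      change Matrix.GeneralLinearGroup.map (τ : E →+* E) (ρ i g) = 1
      rw [h0 i, map_one]
    rw [hχ g, h1, mul_one, mul_inv_cancel, Units.val_one]
  -- scalar kernels are not independent
  have hni : (∃ U : Subgroup G, IsOpen (U : Set G) ∧ ∀ g ∈ U, (∀ i, ρ i g = 1) →
      (∀ j, T j g = 1) →
      ∃ c : E, (V g : Matrix (Fin 2) (Fin 2) E) = c • (1 : Matrix (Fin 2) (Fin 2) E)) →
      ¬ Independent V ρ T := by
    rintro ⟨U, hU, hUs⟩ hI
    obtain ⟨W, hW, hWf⟩ := hI U hU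
    obtain ⟨g, hg, hd, hne⟩ := exists_nonscalar hV hirr hW
    obtain ⟨g', hg', h1, h2, h3⟩ := hWf g hg hd
    obtain ⟨c, hc⟩ := hUs g' hg' h2 h3
    exact hne c (by rw [← h1, hc])
  refine ⟨⟨hsc, fun hs => by_contra fun hno => hni hs (hind hno)⟩,
    ⟨fun hj => hni (hsc hj), fun hj => by_contra fun hno => hj (hind hno)⟩⟩

end Pool.Agent.Helper37.Fd
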