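import Pool.Agent.Helper37.Fc.Frame

/-!
# Project FMD (MP_b583a4_nt), module OFrame: integral frames of finite dimensional subspaces

`exists_unif`: a uniformiser of a locally compact ultrametric field. `exists_oframe`: the unit ball of a finite
dimensional space whose norm takes values in the value group is generated over the integers by finitely many vectors
(residual approximation, iterated, and compactness).
-/

set_option autoImplicit false

namespace Pool.Agent.Helper37.Fd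

open Pool.Agent.Helper37.Fc

variable (E : Type*) [NontriviallyNormedField E] [IsUltrametricDist E] [ProperSpace E]

theorem exists_unif : ∃ π : E, 0 < ‖π‖ ∧ ‖π‖ < 1 ∧ ∀ x : E, ‖x‖ < 1 → ‖x‖ ≤ ‖π‖ := by
  have hclosed : IsClosed (Metric.ball (0 : E) 1) := IsUltrametricDist.isClosed_ball 0 1
  have hcomp : IsCompact (Metric.ball (0 : E) 1) :=
    (isCompact_closedBall (0 : E) 1).of_isClosed_subset hclosed Metric.ball_subset_closedBall
  obtain ⟨π, hπ, hmax⟩ := hcomp.exists_isMaxOn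
    ⟨0, Metric.mem_ball_self one_pos⟩ (continuous_norm.continuousOn (s := Metric.ball (0 : E) 1))
  have h1 : ‖π‖ < 1 := by rwa [mem_ball_zero_iff] at hπ
  have h2 : ∀ x : E, ‖x‖ < 1 → ‖x‖ ≤ ‖π‖ := fun x hx => hmax (by rwa [mem_ball_zero_iff])
  refine ⟨π, ?_, h1, h2⟩
  obtain ⟨x, hx⟩ := NormedField.exists_one_lt_norm E
  have h3 : 0 < ‖x⁻¹‖ := by
    rw [norm_inv]
    positivity
  have h4 : ‖x⁻¹‖ < 1 := by
    rw [norm_inv]
    exact inv_lt_one_of_one_lt₀ hx
  exact lt_of_lt_of_le h3 (h2 _ h4)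

variable {E}

omit [ProperSpace E] in
private theorem ofr_sum_lt {W : Type*} [NormedAddCommGroup W] [IsUltrametricDist W] {ι : Type*}
    (s : Finset ι) (f : ι → W) (h : ∀ i ∈ s, ‖f i‖ < 1) : ‖∑ i ∈ s, f i‖ < 1 := by
  classical
  induction s using Finset.induction_on with
  | empty => simp
  | insert a s ha ih =>
    rw [Finset.sum_insert ha]
    refine lt_of_le_of_lt (IsUltrametricDist.norm_add_le_max _ _) (max_lt ?_ ?_)
    · exact h a (Finset.mem_insert_self _ _)
    · exact ih fun i hi => h i (Finset.mem_insert_of_mem hi)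

/-- residually independent families -/
private def OFrameRI {W : Type*} [NormedAddCommGroup W] [NormedSpace E W] (S : Submodule E W)
    (k : ℕ) (v : Fin k → W) : Prop :=
  (∀ i, v i ∈ S) ∧ (∀ i, ‖v i‖ ≤ 1) ∧
    ∀ a : Fin k → E, (∀ i, ‖a i‖ ≤ 1) → ‖∑ i, a i • v i‖ < 1 → ∀ i, ‖a i‖ < 1

omit [IsUltrametricDist E] [ProperSpace E] in
private theorem ofr_le {W : Type*} [NormedAddCommGroup W] [NormedSpace E W]
    (S : Submodule E W) [FiniteDimensional E S] {k : ℕ} {v : Fin k → W} (h : OFrameRI S k v) :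
    k ≤ Module.finrank E S := by
  obtain ⟨h1, h2, h3⟩ := h
  have hli : LinearIndependent E (fun i => (⟨v i, h1 i⟩ : S)) := by
    rw [Fintype.linearIndependent_iff]
    intro g hg
    by_contra hne
    push Not at hne
    obtain ⟨i1, hi1⟩ := hne
    obtain ⟨i0, -, hmax⟩ := Finset.exists_max_image Finset.univ (fun i => ‖g i‖)
      ⟨i1, Finset.mem_univ _⟩
    have hg0 : g i0 ≠ 0 := by
      intro h0
      have h4 := hmax i1 (Finset.mem_univ _)
      rw [h0, norm_zero] at h4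
      exact hi1 (norm_le_zero_iff.1 h4)
    have hgn : 0 < ‖g i0‖ := norm_pos_iff.2 hg0
    have hsum : ∑ i, g i • v i = 0 := by
      have h4 := congrArg (fun x : S => (x : W)) hg
      simp only [Submodule.coe_sum, Submodule.coe_smul, Submodule.coe_zero] at h4
      exact h4
    have h5 := h3 (fun i => (g i0)⁻¹ * g i) (by
      intro i
      rw [norm_mul, norm_inv, inv_mul_le_iff₀ hgn, mul_one]
      exact hmax i (Finset.mem_univ _)) (by
      have h6 : ∑ i, ((g i0)⁻¹ * g i) • v i = (g i0)⁻¹ • ∑ i, g i • v i := by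
        rw [Finset.smul_sum]
        exact Finset.sum_congr rfl fun i _ => mul_smul _ _ _
      rw [h6, hsum, smul_zero, norm_zero]
      exact one_pos) i0
    rw [inv_mul_cancel₀ hg0, norm_one] at h5
    exact lt_irrefl _ h5
  have h4 := hli.fintype_card_le_finrank
  rwa [Fintype.card_fin] at h4

omit [IsUltrametricDist E] [ProperSpace E] in
private theorem ofr_approx {W : Type*} [NormedAddCommGroup W] [NormedSpace E W]
    [IsUltrametricDist W] (S : Submodule E W) [FiniteDimensional E S] :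
    ∃ (k : ℕ) (v : Fin k → W), k ≤ Module.finrank E S ∧ (∀ i, v i ∈ S) ∧ (∀ i, ‖v i‖ ≤ 1) ∧
      ∀ w ∈ S, ‖w‖ ≤ 1 → ∃ a : Fin k → E, (∀ i, ‖a i‖ ≤ 1) ∧ ‖w - ∑ i, a i • v i‖ < 1 := by
  classical
  let P : ℕ → Prop := fun k => ∃ v : Fin k → W, OFrameRI S k v
  have hP0 : P 0 := ⟨fun i => i.elim0, fun i => i.elim0, fun i => i.elim0, fun _ _ _ i => i.elim0⟩
  obtain ⟨k, hk⟩ : ∃ k, k = Nat.findGreatest P (Module.finrank E S) := ⟨_, rfl⟩
  obtain ⟨v, hv⟩ : P k := by
    rw [hk]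
    exact Nat.findGreatest_spec (Nat.zero_le _) hP0
  have hmax : ¬ P (k + 1) := by
    rintro ⟨u, hu⟩
    have h1 := ofr_le S hu
    have h2 : k + 1 ≤ Nat.findGreatest P (Module.finrank E S) :=
      Nat.le_findGreatest h1 ⟨u, hu⟩
    omega
  refine ⟨k, v, ofr_le S hv, hv.1, hv.2.1, ?_⟩
  intro w hw hw1
  obtain ⟨h1, h2, h3⟩ := hv
  have hno : ¬ OFrameRI S (k + 1) (Fin.snoc v w : Fin (k + 1) → W) := fun h => hmax ⟨_, h⟩
  have hS : ∀ i, (Fin.snoc v w : Fin (k + 1) → W) i ∈ S := by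
    intro i
    refine Fin.lastCases ?_ (fun j => ?_) i
    · rw [Fin.snoc_last]
      exact hw
    · rw [Fin.snoc_castSucc]
      exact h1 j
  have hN : ∀ i, ‖(Fin.snoc v w : Fin (k + 1) → W) i‖ ≤ 1 := by
    intro i
    refine Fin.lastCases ?_ (fun j => ?_) i
    · rw [Fin.snoc_last]
      exact hw1
    · rw [Fin.snoc_castSucc]
      exact h2 j
  have hex : ∃ a : Fin (k + 1) → E, (∀ i, ‖a i‖ ≤ 1) ∧
      ‖∑ i, a i • (Fin.snoc v w : Fin (k + 1) → W) i‖ < 1 ∧ ∃ i, ¬ ‖a i‖ < 1 := by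
    by_contra hcon
    apply hno
    refine ⟨hS, hN, fun a ha hs => ?_⟩
    by_contra hne
    push Not at hne
    obtain ⟨i, hi⟩ := hne
    exact hcon ⟨a, ha, hs, i, not_lt.2 hi⟩
  obtain ⟨a, ha, hs, i, hi⟩ := hex
  rw [Fin.sum_univ_castSucc] at hs
  simp only [Fin.snoc_castSucc, Fin.snoc_last] at hs
  set b := a (Fin.last k) with hb
  by_cases hb1 : ‖b‖ < 1
  · exfalso
    have hbw : ‖b • w‖ < 1 := by
      rw [norm_smul]
      calc ‖b‖ * ‖w‖ ≤ ‖b‖ * 1 := mul_le_mul_of_nonneg_left hw1 (norm_nonneg _)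
        _ < 1 := by rw [mul_one]; exact hb1
    have hs2 : ‖∑ i : Fin k, a i.castSucc • v i‖ < 1 := by
      have e1 : ∑ i : Fin k, a i.castSucc • v i =
          (∑ i : Fin k, a i.castSucc • v i + b • w) + -(b • w) := by abel
      rw [e1]
      refine lt_of_le_of_lt (IsUltrametricDist.norm_add_le_max _ _) (max_lt hs ?_)
      rw [norm_neg]
      exact hbw
    have h4 := h3 (fun i => a i.castSucc) (fun i => ha _) hs2
    apply hi
    refine Fin.lastCases ?_ (fun j => ?_) i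
    · exact hb1
    · exact h4 j
  · have hbn : ‖b‖ = 1 := le_antisymm (ha _) (not_lt.1 hb1)
    have hb0 : b ≠ 0 := by
      intro h0
      rw [h0, norm_zero] at hbn
      exact zero_ne_one hbn
    have hc1 : ∀ i : Fin k, ‖-(b⁻¹ * a i.castSucc)‖ ≤ 1 := by
      intro i
      rw [norm_neg, norm_mul, norm_inv, hbn, inv_one, one_mul]
      exact ha _
    refine ⟨fun i => -(b⁻¹ * a i.castSucc), hc1, ?_⟩
    have e1 : w - ∑ i : Fin k, (-(b⁻¹ * a i.castSucc)) • v i =
        b⁻¹ • (∑ i : Fin k, a i.castSucc • v i + b • w) := by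
      rw [smul_add, smul_smul, inv_mul_cancel₀ hb0, one_smul, Finset.smul_sum]
      have e2 : ∑ i : Fin k, (-(b⁻¹ * a i.castSucc)) • v i =
          -(∑ i : Fin k, b⁻¹ • a i.castSucc • v i) := by
        rw [← Finset.sum_neg_distrib]
        refine Finset.sum_congr rfl fun i _ => ?_
        rw [neg_smul, mul_smul]
      rw [e2]
      abel
    rw [e1, norm_smul, norm_inv, hbn, inv_one, one_mul]
    exact hs

theorem exists_oframe {W : Type*} [NormedAddCommGroup W] [NormedSpace E W] [IsUltrametricDist W]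
    (S : Submodule E W) [FiniteDimensional E S] (hval : ∀ s ∈ S, ∃ c : E, ‖s‖ = ‖c‖) :
    ∃ (k : ℕ) (v : Fin k → W), k ≤ Module.finrank E S ∧ (∀ i, v i ∈ S) ∧ (∀ i, ‖v i‖ ≤ 1) ∧
      ∀ s ∈ S, ‖s‖ ≤ 1 → ∃ a : Fin k → E, (∀ i, ‖a i‖ ≤ 1) ∧ s = ∑ i, a i • v i := by
  obtain ⟨k, v, hk, hvS, hv1, happ⟩ := ofr_approx S
  refine ⟨k, v, hk, hvS, hv1, ?_⟩
  obtain ⟨π, hπ0, hπ1, hπ⟩ := exists_unif E
  have hπne : π ≠ 0 := norm_pos_iff.1 hπ0
  intro s hs hs1
  set B : Set (Fin k → E) := Set.univ.pi fun _ => Metric.closedBall (0 : E) 1 with hB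
  have hBm : ∀ a : Fin k → E, a ∈ B ↔ ∀ i, ‖a i‖ ≤ 1 := by
    intro a
    rw [hB, Set.mem_univ_pi]
    refine forall_congr' fun i => ?_
    rw [mem_closedBall_zero_iff]
  set F : (Fin k → E) → W := fun a => ∑ i, a i • v i with hF
  have hFc : Continuous F := by
    rw [hF]
    refine continuous_finsetSum _ fun i _ => ?_
    exact (continuous_apply i).smul continuous_const
  have hBc : IsCompact B := isCompact_univ_pi fun _ => isCompact_closedBall _ _
  have hLc : IsClosed (F '' B) := (hBc.image hFc).isClosed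
  have hstep : ∀ m : ℕ, ∃ a : Fin k → E, (∀ i, ‖a i‖ ≤ 1) ∧ ∃ s' ∈ S, ‖s'‖ ≤ 1 ∧
      s = F a + π ^ m • s' := by
    intro m
    induction m with
    | zero =>
      refine ⟨fun _ => 0, fun _ => by simp, s, hs, hs1, ?_⟩
      rw [hF]
      simp
    | succ m ih =>
      obtain ⟨a, ha, s', hs', hs'1, hsa⟩ := ih
      obtain ⟨a', ha', hlt⟩ := happ s' hs' hs'1
      have hrS : s' - ∑ i, a' i • v i ∈ S :=
        S.sub_mem hs' (S.sum_mem fun i _ => S.smul_mem _ (hvS i))
      obtain ⟨c, hc⟩ := hval _ hrS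
      have hr : ‖s' - ∑ i, a' i • v i‖ ≤ ‖π‖ := by
        rw [hc]
        rw [hc] at hlt
        exact hπ c hlt
      refine ⟨fun i => a i + π ^ m * a' i, fun i => ?_, π⁻¹ • (s' - ∑ i, a' i • v i),
        S.smul_mem _ hrS, ?_, ?_⟩
      · refine (IsUltrametricDist.norm_add_le_max _ _).trans (max_le (ha i) ?_)
        rw [norm_mul, norm_pow]
        exact mul_le_one₀ (pow_le_one₀ hπ0.le hπ1.le) (norm_nonneg _) (ha' i)
      · rw [norm_smul, norm_inv, inv_mul_le_iff₀ hπ0, mul_one]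
        exact hr
      · rw [smul_smul, pow_succ, mul_assoc, mul_inv_cancel₀ hπne, mul_one]
        have e1 : F (fun i => a i + π ^ m * a' i) = F a + π ^ m • ∑ i, a' i • v i := by
          rw [hF]
          show ∑ i, (a i + π ^ m * a' i) • v i = ∑ i, a i • v i + π ^ m • ∑ i, a' i • v i
          rw [Finset.smul_sum, ← Finset.sum_add_distrib]
          refine Finset.sum_congr rfl fun i _ => ?_
          rw [add_smul, mul_smul]
        rw [e1, smul_sub, hsa]
        abel
  have hmem : s ∈ closure (F '' B) := by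
    rw [Metric.mem_closure_iff]
    intro ε hε
    obtain ⟨m, hm⟩ := exists_pow_lt_of_lt_one hε hπ1
    obtain ⟨a, ha, s', _, hs'1, hsa⟩ := hstep m
    refine ⟨F a, ⟨a, (hBm a).2 ha, rfl⟩, ?_⟩
    rw [dist_eq_norm]
    have e1 : s - F a = π ^ m • s' := by
      rw [hsa]
      abel
    rw [e1, norm_smul, norm_pow]
    have h5 : ‖π‖ ^ m * ‖s'‖ ≤ ‖π‖ ^ m * 1 :=
      mul_le_mul_of_nonneg_left hs'1 (pow_nonneg hπ0.le _)
    linarith
  rw [hLc.closure_eq] at hmem
  obtain ⟨a, ha, hFa⟩ := hmem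
  exact ⟨a, (hBm a).1 ha, hFa.symm⟩

end Pool.Agent.Helper37.Fd
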