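import Pool.Agent.Helper27.FM.Twist
import Pool.Agent.Helper27.FM.Main3

/-!
# Algebraic relations with known representations force a twist (helper27)

`V` is a strongly irreducible two-dimensional `p`-adic representation of a profinite group, `ρ i`
are finitely many arbitrary two-dimensional ones and `σ j` finitely many representations of any
dimensions in whose endomorphisms `ad⁰ V` does not occur.  If on a set of positive Haar measure the
matrices `V g`, `ρ i g`, `σ j g` satisfy a polynomial relation that is not trivial in `V g` (for its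
given determinant), then `V` is a twist of some `ρ i`.
-/

set_option autoImplicit false
open MeasureTheory Pool.Agent.Helper27.FM

namespace Pool.Agent.Helper37.Fd

theorem twist_of_relation (p : ℕ) [hp : Fact p.Prime]
    -- the coefficient field, for example a finite extension of `ℚ_p`, or `ℂ_p`
    {E : Type*} [NontriviallyNormedField E] [IsUltrametricDist E] [CompleteSpace E]
    [NormedAlgebra ℚ_[p] E]
    -- a profinite group with a Haar measure
    {G : Type*} [Group G] [TopologicalSpace G] [IsTopologicalGroup G] [CompactSpace G]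
    [TotallyDisconnectedSpace G] [MeasurableSpace G] [BorelSpace G]
    (μ : Measure G) [μ.IsHaarMeasure]
    -- a strongly irreducible representation
    (V : G →* GL (Fin 2) E) (hV : Continuous V) (hirr : StronglyIrreducible V)
    -- finitely many two-dimensional representations
    {ι : Type*} [Finite ι] (ρ : ι → G →* GL (Fin 2) E) (hρ : ∀ i, Continuous (ρ i))
    -- finitely many representations of any dimensions, with no `ad⁰ V` in their endomorphisms
    {J : Type*} [Finite J] (n : J → ℕ) (σ : ∀ j, G →* GL (Fin (n j)) E)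
    (hσ : ∀ j, Continuous (σ j)) (hocc : ∀ j, ¬ AdOccurs V (σ j))
    -- a polynomial in the entries of all these matrices
    (P : MvPolynomial (Var ι J n) E)
    (h : μ {g | MvPolynomial.eval (entries (V g) (fun i => ρ i g) (fun j => σ j g)) P = 0 ∧
      ∃ x : Matrix (Fin 2) (Fin 2) E, x.det = (V g : Matrix (Fin 2) (Fin 2) E).det ∧
        MvPolynomial.eval (entries x (fun i => ρ i g) (fun j => σ j g)) P ≠ 0} ≠ 0) :
    ∃ i, IsTwist V (ρ i) := by
  classical
  have : CharZero E := charZeroE p
  have : Fintype ι := Fintype.ofFinite ι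
  have : Fintype J := Fintype.ofFinite J
  by_contra hcon
  push Not at hcon
  obtain ⟨U, hU, hUo, hs⟩ := exists_small3 p hV hρ hσ
  rcases sl_in_span p hV ((strIrr_iff _).mp hirr) hocc hU hUo hs with ⟨i, hh, hk⟩ | hfull
  · exact hcon i (isTwist_of hV (hρ i) hk)
  apply h
  have hnil : ∀ k, nil2 E ((ι → M2 E) × (∀ j : J, Matrix (Fin (n j)) (Fin (n j)) E)) k ∈
      ASp E p (RR V ρ σ) U := by
    intro k
    cases k
    · exact hfull (Matrix.single 1 0 1) (by simp)
    · exact hfull (Matrix.single 0 1 1) (by simp)
  have hev : ∀ X : Amb3 E ι n, ev (bas E ι J n) X P =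
      MvPolynomial.eval (entries X.1 X.2.1 X.2.2) P := by
    intro X
    have e : (fun v => (bas E ι J n).repr X v) = entries X.1 X.2.1 X.2.2 := by
      funext v
      exact bas_repr X v
    unfold ev
    rw [e, MvPolynomial.aeval_eq_eval]
  have hae := ae_infVan p (bas E ι J n) μ (continuous_RR hV hρ hσ) hnil P
  rw [ae_iff] at hae
  refine measure_mono_null ?_ hae
  rintro g ⟨h0, x, hx, hx0⟩
  change ¬ (ev (bas E ι J n) (RR V ρ σ g) P = 0 → InfVan (bas E ι J n) _ (RR V ρ σ g) P)
  intro hinf
  have h1 := hinf (by rw [hev]; exact h0)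
  have hdet : (x * (((V g)⁻¹ : GL (Fin 2) E) : M2 E)).det = 1 := by
    rw [Matrix.det_mul, hx, ← Matrix.det_mul, mul_inv_val, Matrix.det_one]
  have h2 := infVan_sl (bas E ι J n) h1 _ hdet [] (by simp)
  rw [List.foldr_nil, hev] at h2
  apply hx0
  have e1 : x * (((V g)⁻¹ : GL (Fin 2) E) : M2 E) * (V g : M2 E) = x := by
    rw [mul_assoc, inv_mul_val, mul_one]
  have e2 : ((x * (((V g)⁻¹ : GL (Fin 2) E) : M2 E), 1) : Amb3 E ι n) * RR V ρ σ g =
      (x, ((fun i => (ρ i g : M2 E)), (fun j => (σ j g : Matrix (Fin (n j)) (Fin (n j)) E)))) := by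
    ext1
    · exact e1
    · exact one_mul _
  rw [e2] at h2
  exact h2

end Pool.Agent.Helper37.Fd
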