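import Pool.Agent.Helper37.Fc.StabF
import Pool.Agent.Helper37.Fd.OFrame

/-!
# Project FMD (MP_b583a4_nt), module StabR: a subgroup of bounded index acting almost trivially

`S` is a finite dimensional space of continuous functions on the compact group `G`, stable under all translations `rt h` (`rt h f g = f (g * h)`, see `Pool/Agent/Helper37/Fc/StabF.lean`).

PLAN. As `exists_stab` in StabF.lean (its private lemmas `rt_apply, norm_rt_le, rt_sub, rt_rt, rt_one, add_lt, cont_rt` can be copied, private). `hval` of `exists_oframe`: the sup norm of `s : C(G, E)` is attained (`G` is compact and nonempty), so it is the norm of a value.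
With `(k, v)` from `exists_oframe`, `H = {h | ∀ i, ‖rt h (v i) - v i‖ < r}`. For `h ∈ H` and `s ∈ S`, `‖s‖ ≤ 1`: `s = ∑ a i • v i`, so `‖rt h s - s‖ < r` (ultrametric; `0 < r` for the empty sum); by scaling with `c`, `‖c‖ = ‖s‖`, `‖rt h s - s‖ ≤ r * ‖s‖` for all `s ∈ S`.
`H` is a subgroup: `rt (a * b) s - s = rt a (rt b s - s) + (rt a s - s)`, `rt a⁻¹ s - s = - rt a⁻¹ (rt a s - s)`; open: `cont_rt` and `isOpen_lt`, finite intersection (`isOpen_iInter_of_finite`). Index: `rt h (v i) ∈ S` has norm `≤ 1`, so it is `∑ j, a i j • v j` with `‖a i j‖ ≤ 1`; approximate `a i j` by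
`α i j ∈ A` within `< r`; then `‖rt h (v i) - ∑ j, α i j • v j‖ < r`. If `h, h'` have the same `α` then `‖rt h (v i) - rt h' (v i)‖ < r`, so `h'⁻¹ * h ∈ H`. Hence the index is at most `A.card ^ (k * k)`, and `1 ≤ A.card` (`hA 0`).
-/

set_option autoImplicit false

namespace Pool.Agent.Helper37.Fd

open Pool.Agent.Helper37.Fc

theorem exists_near (E : Type*) [NontriviallyNormedField E] [IsUltrametricDist E] [ProperSpace E]
    {r : ℝ} (hr : 0 < r) : ∃ A : Finset E, ∀ x : E, ‖x‖ ≤ 1 → ∃ a ∈ A, ‖x - a‖ < r := by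
  have hc : IsCompact (Metric.closedBall (0 : E) 1) := isCompact_closedBall 0 1
  obtain ⟨t, -, htf, hcov⟩ := finite_cover_balls_of_compact hc hr
  refine ⟨htf.toFinset, ?_⟩
  intro x hx
  have h1 : x ∈ Metric.closedBall (0 : E) 1 := by
    rwa [mem_closedBall_zero_iff]
  have h2 := hcov h1
  rw [Set.mem_iUnion₂] at h2
  obtain ⟨a, ha, hxa⟩ := h2
  refine ⟨a, (Set.Finite.mem_toFinset htf).2 ha, ?_⟩
  rwa [Metric.mem_ball, dist_eq_norm] at hxa

variable {E : Type*} [NontriviallyNormedField E] [IsUltrametricDist E] [ProperSpace E]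
  {G : Type*} [Group G] [TopologicalSpace G] [IsTopologicalGroup G] [CompactSpace G]

omit [ProperSpace E] in
private theorem rt_apply (h : G) (f : C(G, E)) (g : G) : rt h f g = f (g * h) := rfl

omit [ProperSpace E] in
private theorem norm_rt_le (h : G) (f : C(G, E)) : ‖rt h f‖ ≤ ‖f‖ := by
  rw [ContinuousMap.norm_le _ (norm_nonneg _)]
  intro g
  exact f.norm_coe_le_norm (g * h)

omit [ProperSpace E] in
private theorem rt_sub (h : G) (f f' : C(G, E)) : rt h (f - f') = rt h f - rt h f' := rfl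

omit [ProperSpace E] in
private theorem rt_smul (h : G) (c : E) (f : C(G, E)) : rt h (c • f) = c • rt h f := rfl

omit [ProperSpace E] in
private theorem rt_add (h : G) (f f' : C(G, E)) : rt h (f + f') = rt h f + rt h f' := rfl

omit [ProperSpace E] in
private theorem rt_zero (h : G) : rt h (0 : C(G, E)) = 0 := rfl

omit [ProperSpace E] in
private theorem rt_sum (h : G) {ι : Type*} (s : Finset ι) (f : ι → C(G, E)) :
    rt h (∑ i ∈ s, f i) = ∑ i ∈ s, rt h (f i) := by
  classical
  induction s using Finset.induction_on with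
  | empty => simp only [Finset.sum_empty, rt_zero]
  | insert a s ha ih => rw [Finset.sum_insert ha, Finset.sum_insert ha, rt_add, ih]

omit [ProperSpace E] in
private theorem rt_rt (h h' : G) (f : C(G, E)) : rt h (rt h' f) = rt (h * h') f := by
  ext g
  exact congrArg f (mul_assoc g h h')

omit [ProperSpace E] in
private theorem rt_one (f : C(G, E)) : rt 1 f = f := by
  ext g
  exact congrArg f (mul_one g)

omit [ProperSpace E] in
private theorem add_lt {r : ℝ} {a b : C(G, E)} (ha : ‖a‖ < r) (hb : ‖b‖ < r) : ‖a + b‖ < r :=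
  lt_of_le_of_lt (IsUltrametricDist.norm_add_le_max a b) (max_lt ha hb)

omit [ProperSpace E] in
private theorem cont_rt (f : C(G, E)) : Continuous fun h : G => rt h f := by
  have h1 : Continuous (fun p : G × G => f (p.2 * p.1)) :=
    f.continuous.comp (continuous_snd.mul continuous_fst)
  exact (ContinuousMap.curry ⟨_, h1⟩).continuous

omit [ProperSpace E] in
private theorem sum_ltr {r : ℝ} (hr : 0 < r) {ι : Type*}
    (s : Finset ι) (f : ι → C(G, E)) (h : ∀ i ∈ s, ‖f i‖ < r) : ‖∑ i ∈ s, f i‖ < r := by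
  classical
  induction s using Finset.induction_on with
  | empty => simpa using hr
  | insert a s ha ih =>
    rw [Finset.sum_insert ha]
    refine add_lt ?_ ?_
    · exact h a (Finset.mem_insert_self _ _)
    · exact ih fun i hi => h i (Finset.mem_insert_of_mem hi)

omit [ProperSpace E] in
private theorem smul_ltr {r : ℝ} {c : E} {f : C(G, E)} (hc : ‖c‖ ≤ 1) (hf : ‖f‖ < r) :
    ‖c • f‖ < r := by
  rw [norm_smul]
  exact lt_of_le_of_lt (mul_le_of_le_one_left (norm_nonneg _) hc) hf

omit [ProperSpace E] in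
private theorem smul_ltr' {r : ℝ} {c : E} {f : C(G, E)} (hc : ‖c‖ < r) (hf : ‖f‖ ≤ 1) :
    ‖c • f‖ < r := by
  rw [norm_smul]
  exact lt_of_le_of_lt (mul_le_of_le_one_right (norm_nonneg _) hf) hc

theorem exists_stabr {r : ℝ} (hr : 0 < r) (A : Finset E)
    (hA : ∀ x : E, ‖x‖ ≤ 1 → ∃ a ∈ A, ‖x - a‖ < r) (S : Submodule E C(G, E))
    [FiniteDimensional E S] (hS : ∀ h, ∀ s ∈ S, rt h s ∈ S) :
    ∃ H : Subgroup G, IsOpen (H : Set G) ∧
      H.index ≤ A.card ^ (Module.finrank E S * Module.finrank E S) ∧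
      ∀ h ∈ H, ∀ s ∈ S, ‖rt h s - s‖ ≤ r * ‖s‖ := by
  have hval : ∀ s ∈ S, ∃ c : E, ‖s‖ = ‖c‖ := by
    intro s _
    obtain ⟨x, -, hx⟩ := IsCompact.exists_isMaxOn (isCompact_univ (X := G))
      ⟨1, Set.mem_univ _⟩ (f := fun g => ‖s g‖) (by fun_prop)
    refine ⟨s x, le_antisymm ?_ (s.norm_coe_le_norm x)⟩
    rw [ContinuousMap.norm_le _ (norm_nonneg _)]
    intro g
    exact hx (Set.mem_univ g)
  obtain ⟨k, v, hk, hvS, hv1, hrep⟩ := exists_oframe S hval
  have hAne : 1 ≤ A.card := by
    obtain ⟨a, ha, -⟩ := hA 0 (by simp)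
    exact Finset.card_pos.mpr ⟨a, ha⟩
  have hmul : ∀ f : C(G, E), ∀ a b : G, ‖rt a f - f‖ < r → ‖rt b f - f‖ < r →
      ‖rt (a * b) f - f‖ < r := by
    intro f a b ha hb
    have e : rt (a * b) f - f = rt a (rt b f - f) + (rt a f - f) := by
      rw [rt_sub, rt_rt]
      abel
    rw [e]
    exact add_lt (lt_of_le_of_lt (norm_rt_le _ _) hb) ha
  have hinv : ∀ f : C(G, E), ∀ a : G, ‖rt a f - f‖ < r → ‖rt a⁻¹ f - f‖ < r := by
    intro f a ha
    have e : rt a⁻¹ f - f = - rt a⁻¹ (rt a f - f) := by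
      rw [rt_sub, rt_rt, inv_mul_cancel, rt_one]
      abel
    rw [e, norm_neg]
    exact lt_of_le_of_lt (norm_rt_le _ _) ha
  let H : Subgroup G :=
    { carrier := {h | ∀ i, ‖rt h (v i) - v i‖ < r}
      mul_mem' := fun {a b} ha hb i => hmul (v i) a b (ha i) (hb i)
      one_mem' := by
        intro i
        rw [rt_one, sub_self, norm_zero]
        exact hr
      inv_mem' := fun {a} ha i => hinv (v i) a (ha i) }
  have hH : ∀ h, h ∈ H ↔ ∀ i, ‖rt h (v i) - v i‖ < r := fun h => Iff.rfl
  refine ⟨H, ?_, ?_, ?_⟩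
  · have h2 : IsOpen {h : G | ∀ i, ‖rt h (v i) - v i‖ < r} := by
      rw [Set.setOf_forall]
      exact isOpen_iInter_of_finite fun i =>
        isOpen_lt ((cont_rt (v i)).sub continuous_const).norm continuous_const
    exact h2
  · have hch : ∀ h : G, ∀ i : Fin k, ∃ a : Fin k → A,
        ‖rt h (v i) - ∑ j, (a j : E) • v j‖ < r := by
      intro h i
      obtain ⟨a, ha, hs⟩ := hrep (rt h (v i)) (hS h _ (hvS i)) ((norm_rt_le h _).trans (hv1 i))
      choose α hα hαc using fun j : Fin k => hA _ (ha j)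
      refine ⟨fun j => ⟨α j, hα j⟩, ?_⟩
      show ‖rt h (v i) - ∑ j, α j • v j‖ < r
      rw [hs, ← Finset.sum_sub_distrib]
      refine sum_ltr hr _ _ fun j _ => ?_
      rw [← sub_smul]
      exact smul_ltr' (hαc j) (hv1 j)
    choose α hα using hch
    have hinj : Function.Injective (fun q : G ⧸ H => α q.out) := by
      intro q q' hqq
      have hqq' : α q.out = α q'.out := hqq
      have h4 : ∀ i, ‖rt (q'.out⁻¹ * q.out) (v i) - v i‖ < r := by
        intro i
        have h1 := hα q.out i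
        have h2 := hα q'.out i
        rw [hqq'] at h1
        have h3 : ‖rt q.out (v i) - rt q'.out (v i)‖ < r := by
          have e : rt q.out (v i) - rt q'.out (v i)
              = (rt q.out (v i) - ∑ j, (α q'.out i j : E) • v j)
              + (-(rt q'.out (v i) - ∑ j, (α q'.out i j : E) • v j)) := by abel
          rw [e]
          refine add_lt h1 ?_
          rw [norm_neg]
          exact h2
        have e : rt (q'.out⁻¹ * q.out) (v i) - v i
            = rt q'.out⁻¹ (rt q.out (v i) - rt q'.out (v i)) := by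
          rw [rt_sub, rt_rt, rt_rt, inv_mul_cancel, rt_one]
        rw [e]
        exact lt_of_le_of_lt (norm_rt_le _ _) h3
      have h5 : (QuotientGroup.mk q'.out : G ⧸ H) = QuotientGroup.mk q.out :=
        QuotientGroup.eq.mpr ((hH _).mpr h4)
      rw [QuotientGroup.out_eq', QuotientGroup.out_eq'] at h5
      exact h5.symm
    have h6 : Nat.card (G ⧸ H) ≤ Nat.card (Fin k → Fin k → A) :=
      Nat.card_le_card_of_injective _ hinj
    have h7 : Nat.card (Fin k → Fin k → A) = A.card ^ (k * k) := by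
      simp [Nat.card_eq_fintype_card, pow_mul]
    calc H.index = Nat.card (G ⧸ H) := rfl
      _ ≤ A.card ^ (k * k) := by rw [← h7]; exact h6
      _ ≤ A.card ^ (Module.finrank E S * Module.finrank E S) :=
        Nat.pow_le_pow_right hAne (Nat.mul_le_mul hk hk)
  · intro h hh s hs
    have hA1 : ∀ s ∈ S, ‖s‖ ≤ 1 → ‖rt h s - s‖ < r := by
      intro s hs hs1
      obtain ⟨a, ha, hsa⟩ := hrep s hs hs1
      have e : rt h s - s = ∑ i, a i • (rt h (v i) - v i) := by
        conv_lhs => rw [hsa]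
        rw [rt_sum, ← Finset.sum_sub_distrib]
        refine Finset.sum_congr rfl fun i _ => ?_
        rw [rt_smul, smul_sub]
      rw [e]
      exact sum_ltr hr _ _ fun i _ => smul_ltr (ha i) ((hH h).1 hh i)
    obtain ⟨c, hc⟩ := hval s hs
    by_cases hc0 : c = 0
    · have hs0 : s = 0 := by
        rw [hc0, norm_zero] at hc
        exact norm_eq_zero.1 hc
      rw [hs0, rt_zero, sub_self, norm_zero, mul_zero]
    · have hcn : 0 < ‖c‖ := norm_pos_iff.2 hc0
      have h1 := hA1 (c⁻¹ • s) (S.smul_mem _ hs) (by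
        rw [norm_smul, norm_inv, hc, inv_mul_cancel₀ hcn.ne'])
      have e : rt h (c⁻¹ • s) - c⁻¹ • s = c⁻¹ • (rt h s - s) := by
        rw [rt_smul, smul_sub]
      rw [e, norm_smul, norm_inv, inv_mul_lt_iff₀ hcn] at h1
      rw [hc, mul_comm]
      exact h1.le

end Pool.Agent.Helper37.Fd
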