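import Pool.Agent.Helper37.Fc.PolyFun
import Pool.Agent.Helper27.FM.Defs2

/-!
# Project FMD (MP_b583a4_nt), module Var: polynomial functions on the group have few translates
-/

set_option autoImplicit false
open Matrix

namespace Pool.Agent.Helper37.Fd

open Pool.Agent.Helper37.Fc Pool.Agent.Helper27.FM

open MvPolynomial in
private theorem pv_degree {K σ τ : Type*} [Field K] (s : σ → MvPolynomial τ K)
    (hs : ∀ v, (s v).totalDegree ≤ 1) (P : MvPolynomial σ K) :
    (bind₁ s P).totalDegree ≤ P.totalDegree := by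
  rw [bind₁, aeval_def, eval₂_eq]
  refine totalDegree_finsetSum_le ?_
  intro m hm
  refine (totalDegree_mul _ _).trans ?_
  have h1 : (algebraMap K (MvPolynomial τ K) (coeff m P)).totalDegree = 0 := totalDegree_C _
  rw [h1, zero_add]
  refine (totalDegree_finsetProd _ _).trans ?_
  calc ∑ i ∈ m.support, (s i ^ m i).totalDegree ≤ ∑ i ∈ m.support, m i := by
        refine Finset.sum_le_sum ?_
        intro i _
        refine (totalDegree_pow _ _).trans ?_
        calc m i * (s i).totalDegree ≤ m i * 1 := Nat.mul_le_mul_left _ (hs i)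
          _ = m i := mul_one _
    _ ≤ P.totalDegree := le_totalDegree hm

open MvPolynomial in
private theorem pv_eval {K σ τ : Type*} [Field K] (s : σ → MvPolynomial τ K) (x : τ → K)
    (P : MvPolynomial σ K) : eval x (bind₁ s P) = eval (fun v => eval x (s v)) P :=
  eval₂Hom_bind₁ _ _ _ _

/-- the linear substitution of a translation -/
private noncomputable def pvs {K : Type*} [Field K] {ι J : Type*} {n : J → ℕ}
    (x : Matrix (Fin 2) (Fin 2) K) (y : ι → Matrix (Fin 2) (Fin 2) K)
    (z : ∀ j : J, Matrix (Fin (n j)) (Fin (n j)) K) :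
    Var ι J n → MvPolynomial (Var ι J n) K
  | .inl a => ∑ c, MvPolynomial.C (x c a.2) * MvPolynomial.X (.inl (a.1, c))
  | .inr (.inl a) => ∑ c, MvPolynomial.C (y a.1 c a.2.2) *
      MvPolynomial.X (.inr (.inl ⟨a.1, (a.2.1, c)⟩))
  | .inr (.inr a) => ∑ c, MvPolynomial.C (z a.1 c a.2.2) *
      MvPolynomial.X (.inr (.inr ⟨a.1, (a.2.1, c)⟩))

open MvPolynomial in
private theorem pvs_term {K τ : Type*} [Field K] (c : K) (v : τ) :
    (C c * X v : MvPolynomial τ K).totalDegree ≤ 1 := by
  refine (totalDegree_mul _ _).trans ?_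
  rw [totalDegree_C, totalDegree_X]

private theorem pvs_degree {K : Type*} [Field K] {ι J : Type*} {n : J → ℕ}
    (x : Matrix (Fin 2) (Fin 2) K) (y : ι → Matrix (Fin 2) (Fin 2) K)
    (z : ∀ j : J, Matrix (Fin (n j)) (Fin (n j)) K) (v : Var ι J n) :
    (pvs x y z v).totalDegree ≤ 1 := by
  rcases v with a | a | a
  · refine MvPolynomial.totalDegree_finsetSum_le ?_
    intro c _
    exact pvs_term _ _
  · refine MvPolynomial.totalDegree_finsetSum_le ?_
    intro c _
    exact pvs_term _ _
  · refine MvPolynomial.totalDegree_finsetSum_le ?_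
    intro c _
    exact pvs_term _ _

private theorem pvs_eval {K : Type*} [Field K] {ι J : Type*} {n : J → ℕ}
    (x x' : Matrix (Fin 2) (Fin 2) K) (y y' : ι → Matrix (Fin 2) (Fin 2) K)
    (z z' : ∀ j : J, Matrix (Fin (n j)) (Fin (n j)) K) (v : Var ι J n) :
    MvPolynomial.eval (entries x' y' z') (pvs x y z v) =
      entries (x' * x) (fun i => y' i * y i) (fun j => z' j * z j) v := by
  rcases v with a | a | a
  · simp only [pvs, map_sum, map_mul, MvPolynomial.eval_C, MvPolynomial.eval_X, entries,
      Matrix.mul_apply]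
    exact Finset.sum_congr rfl fun c _ => mul_comm _ _
  · simp only [pvs, map_sum, map_mul, MvPolynomial.eval_C, MvPolynomial.eval_X, entries,
      Matrix.mul_apply]
    exact Finset.sum_congr rfl fun c _ => mul_comm _ _
  · simp only [pvs, map_sum, map_mul, MvPolynomial.eval_C, MvPolynomial.eval_X, entries,
      Matrix.mul_apply]
    exact Finset.sum_congr rfl fun c _ => mul_comm _ _

private theorem pv_cont {E : Type*} [NontriviallyNormedField E] {G : Type*} [Group G]
    [TopologicalSpace G] {ι J : Type*} {n : J → ℕ} {V : G →* GL (Fin 2) E}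
    {ρ : ι → G →* GL (Fin 2) E} {σ : ∀ j, G →* GL (Fin (n j)) E} (hV : Continuous V)
    (hρ : ∀ i, Continuous (ρ i)) (hσ : ∀ j, Continuous (σ j)) :
    Continuous fun g : G => (entries (V g : Matrix (Fin 2) (Fin 2) E)
      (fun i => (ρ i g : Matrix (Fin 2) (Fin 2) E))
      (fun j => (σ j g : Matrix (Fin (n j)) (Fin (n j)) E)) : Var ι J n → E) := by
  refine continuous_pi ?_
  intro v
  rcases v with a | a | a
  · exact (Units.continuous_val.comp hV).matrix_elem a.1 a.2
  · exact (Units.continuous_val.comp (hρ a.1)).matrix_elem a.2.1 a.2.2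
  · exact (Units.continuous_val.comp (hσ a.1)).matrix_elem a.2.1 a.2.2

theorem exists_polyvar {E : Type*} [NontriviallyNormedField E] [IsUltrametricDist E]
    {G : Type*} [Group G] [TopologicalSpace G] [IsTopologicalGroup G] [CompactSpace G]
    {ι J : Type*} [Finite ι] [Finite J] {n : J → ℕ} {V : G →* GL (Fin 2) E}
    {ρ : ι → G →* GL (Fin 2) E} {σ : ∀ j, G →* GL (Fin (n j)) E} (hV : Continuous V)
    (hρ : ∀ i, Continuous (ρ i)) (hσ : ∀ j, Continuous (σ j)) (d : ℕ)
    (P : MvPolynomial (Var ι J n) E) (hP : P.totalDegree ≤ d) :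
    ∃ (f : C(G, E)) (S : Submodule E C(G, E)), FiniteDimensional E S ∧
      Module.finrank E S ≤ Module.finrank E (MvPolynomial.restrictTotalDegree (Var ι J n) E d) ∧
      (∀ h, rt h f ∈ S) ∧
      ∀ g, f g = MvPolynomial.eval (entries (V g) (fun i => ρ i g) (fun j => σ j g)) P := by
  have he := pv_cont (n := n) hV hρ hσ
  let pf : MvPolynomial (Var ι J n) E →ₗ[E] C(G, E) :=
    { toFun := fun Q => ⟨fun g => MvPolynomial.eval (entries (V g) (fun i => ρ i g)
          (fun j => σ j g)) Q, (MvPolynomial.continuous_eval Q).comp he⟩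
      map_add' := by
        intro Q Q'
        ext g
        simp
      map_smul' := by
        intro c Q
        ext g
        simp [MvPolynomial.smul_eval] }
  have hpf : ∀ Q g, pf Q g = MvPolynomial.eval (entries (V g) (fun i => ρ i g)
      (fun j => σ j g)) Q := fun Q g => rfl
  refine ⟨pf P, (MvPolynomial.restrictTotalDegree _ E d).map pf, ?_, ?_, ?_, ?_⟩
  · infer_instance
  · exact Submodule.finrank_map_le _ _
  · intro h
    refine Submodule.mem_map.2 ⟨MvPolynomial.bind₁ (pvs (V h : Matrix (Fin 2) (Fin 2) E)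
      (fun i => (ρ i h : Matrix (Fin 2) (Fin 2) E))
      (fun j => (σ j h : Matrix (Fin (n j)) (Fin (n j)) E))) P, ?_, ?_⟩
    · rw [MvPolynomial.mem_restrictTotalDegree]
      exact (pv_degree _ (pvs_degree _ _ _) P).trans hP
    · ext g
      rw [hpf, pv_eval]
      have e1 : (rt h (pf P)) g = pf P (g * h) := rfl
      rw [e1, hpf]
      congr 2
      funext v
      rw [pvs_eval]
      simp only [map_mul, Units.val_mul]
  · intro g
    rfl

end Pool.Agent.Helper37.Fd
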